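import Pool.Agent.HX6.ST.P

/-! Polynomials which are small on the unit circle. -/

set_option autoImplicit false
set_option linter.unusedSectionVars false

namespace Pool.Agent.HX6.FD

open Filter Topology Complex MeasureTheory UnitAddTorus Polynomial Pool.Agent.HX6.ST
open scoped ComplexConjugate

/-- points of the unit circle can be approximated by other points of the unit circle -/
theorem circle_lim {ζ : ℂ} (hζ : ‖ζ‖ = 1) {p : ℂ → Prop} (hp : IsClosed {z | p z}) {S : Set ℂ}
    (hS : S.Finite) (h : ∀ z : ℂ, ‖z‖ = 1 → z ∉ S → p z) : p ζ := by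
  have h1 : Tendsto (fun t : ℝ => ζ * cexp (t * I)) (𝓝[>] 0) (𝓝 ζ) := by
    have hc : Continuous fun t : ℝ => ζ * cexp (t * I) := by fun_prop
    have := hc.tendsto 0
    simp only [ofReal_zero, zero_mul, Complex.exp_zero, mul_one] at this
    exact this.mono_left nhdsWithin_le_nhds
  refine hp.mem_of_tendsto h1 ?_
  have h2 : ∀ᶠ t : ℝ in 𝓝[>] 0, t < 1 :=
    (eventually_lt_nhds (show (0 : ℝ) < 1 from one_pos)).filter_mono nhdsWithin_le_nhds
  have hne : ∀ᶠ t : ℝ in 𝓝[>] 0, ζ * cexp (t * I) ≠ ζ := by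
    filter_upwards [h2, self_mem_nhdsWithin] with t ht1 ht0
    have ht0' : (0 : ℝ) < t := ht0
    intro h3
    have hζ0 : ζ ≠ 0 := by
      rintro rfl
      simp at hζ
    have h4 : cexp (t * I) = 1 := mul_left_cancel₀ hζ0 (h3.trans (mul_one ζ).symm)
    rw [Complex.exp_eq_one_iff] at h4
    obtain ⟨n, hn⟩ := h4
    have h5 : (t : ℂ) = n * (2 * Real.pi) := by
      have h6 : (t : ℂ) * I = (n * (2 * Real.pi)) * I := by rw [hn]; ring
      exact mul_right_cancel₀ I_ne_zero h6
    have h6 : t = n * (2 * Real.pi) := by exact_mod_cast h5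
    have hpi := Real.pi_gt_three
    have h7 : 0 < n := by
      by_contra h8
      push Not at h8
      have : (n : ℝ) ≤ 0 := by exact_mod_cast h8
      nlinarith
    have h8 : (1 : ℝ) ≤ n := by exact_mod_cast h7
    nlinarith
  have hall : ∀ᶠ t : ℝ in 𝓝[>] 0, ∀ s ∈ S, ζ * cexp (t * I) ≠ s := by
    rw [Filter.eventually_all_finite hS]
    intro s _
    by_cases hs : s = ζ
    · rw [hs]; exact hne
    · exact h1.eventually_ne (Ne.symm hs)
  filter_upwards [hall] with t ht
  refine h _ ?_ fun hmem => ht _ hmem rfl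
  rw [norm_mul, hζ, Complex.norm_exp_ofReal_mul_I, mul_one]

/-- division of polynomials by polynomials with all zeros on the unit circle -/
theorem dvd_of_le (n : ℕ) : ∀ (g f : ℂ[X]), g.natDegree = n → g ≠ 0 →
    (∀ z, g.IsRoot z → ‖z‖ = 1) → (∀ z : ℂ, ‖z‖ = 1 → ‖f.eval z‖ ≤ ‖g.eval z‖) → g ∣ f := by
  induction n with
  | zero =>
    intro g f h0 hg _ _
    have h1 := eq_C_of_natDegree_eq_zero h0
    have h2 : g.coeff 0 ≠ 0 := by
      intro h3
      apply hg
      rw [h1, h3, C_0]
    rw [h1]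
    exact (isUnit_C.2 (isUnit_iff_ne_zero.2 h2)).dvd
  | succ n ih =>
    intro g f hn hg hr hle
    obtain ⟨ζ, hζ⟩ := IsAlgClosed.exists_root g (by
      intro h
      have := natDegree_eq_of_degree_eq_some (n := 0) h
      omega)
    have hζ1 := hr ζ hζ
    have hf : f.IsRoot ζ := by
      have h1 := hle ζ hζ1
      rw [hζ.eq_zero, norm_zero] at h1
      exact norm_le_zero_iff.1 h1
    obtain ⟨g1, rfl⟩ := dvd_iff_isRoot.2 hζ
    obtain ⟨f1, rfl⟩ := dvd_iff_isRoot.2 hf
    have hg1 : g1 ≠ 0 := right_ne_zero_of_mul hg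
    have hn1 : g1.natDegree = n := by
      rw [natDegree_mul (X_sub_C_ne_zero ζ) hg1, natDegree_X_sub_C] at hn
      omega
    refine mul_dvd_mul_left _ (ih g1 f1 hn1 hg1 (fun z hz => hr z ?_) ?_)
    · exact hz.dvd (Dvd.intro_left _ rfl)
    · have key : ∀ z : ℂ, ‖z‖ = 1 → z ≠ ζ → ‖f1.eval z‖ ≤ ‖g1.eval z‖ := by
        intro z hz hne
        have h1 := hle z hz
        rw [eval_mul, eval_mul, norm_mul, norm_mul, eval_sub, eval_X, eval_C] at h1
        exact le_of_mul_le_mul_left h1 (norm_pos_iff.2 (sub_ne_zero.2 hne))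
      intro z hz
      by_cases hne : z = ζ
      · rw [hne]
        exact circle_lim (p := fun z => ‖f1.eval z‖ ≤ ‖g1.eval z‖) hζ1
          (isClosed_le f1.continuous.norm g1.continuous.norm) (Set.finite_singleton ζ) key
      · exact key z hz hne

section parseval

variable {d : Type} [Fintype d]

theorem haar_int {m : Measure (UnitAddTorus d)} (hm : HaarOn ⊤ m) [DecidableEq (d → ℤ)]
    (n : d → ℤ) : ∫ x, mFourier n x ∂m = if n = 0 then 1 else 0 := by
  have := hm.prob
  by_cases hn : n = 0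
  · rw [if_pos hn, hn, mFourier_zero]
    simp
  · rw [if_neg hn]
    exact fc_haar_top hm hn

/-- Parseval's formula -/
theorem parseval {m : Measure (UnitAddTorus d)} (hm : HaarOn ⊤ m) (E : Finset (d → ℤ))
    (c : (d → ℤ) → ℂ) :
    ∫ x, ‖∑ n ∈ E, c n * mFourier n x‖ ^ 2 ∂m = ∑ n ∈ E, ‖c n‖ ^ 2 := by
  classical
  have := hm.prob
  have h1 : ∀ x, ((‖∑ n ∈ E, c n * mFourier n x‖ ^ 2 : ℝ) : ℂ) =
      ∑ k ∈ E, ∑ l ∈ E, (c k * conj (c l)) * mFourier (k + -l) x := by
    intro x
    rw [← Complex.normSq_eq_norm_sq, ← Complex.mul_conj]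
    simp only [map_sum]
    rw [Finset.sum_mul_sum]
    refine Finset.sum_congr rfl fun k _ => Finset.sum_congr rfl fun l _ => ?_
    rw [mFourier_add, mFourier_neg, map_mul]
    ring
  have h2 : ((∫ x, ‖∑ n ∈ E, c n * mFourier n x‖ ^ 2 ∂m : ℝ) : ℂ) =
      ((∑ n ∈ E, ‖c n‖ ^ 2 : ℝ) : ℂ) := by
    rw [← integral_complex_ofReal]
    simp only [h1]
    rw [integral_finsetSum _ fun k _ => integrable_finsetSum _ fun l _ =>
      (integrable_cont m (mFourier _)).const_mul _]
    push_cast
    refine Finset.sum_congr rfl fun k hk => ?_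
    rw [integral_finsetSum _ fun l _ => (integrable_cont m (mFourier _)).const_mul _]
    simp only [integral_const_mul, haar_int hm]
    rw [Finset.sum_eq_single k]
    · rw [if_pos (add_neg_cancel k), mul_one, Complex.mul_conj']
    · intro l _ hl
      rw [if_neg, mul_zero]
      intro h0
      exact hl (by rw [← sub_eq_add_neg, sub_eq_zero] at h0; exact h0.symm)
    · intro h; exact absurd hk h
  exact_mod_cast h2

end parseval

/-- a polynomial with integer coefficients, bounded by one on the unit circle -/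
theorem small_int {h : ℤ[X]} (hh : ∀ z : ℂ, ‖z‖ = 1 → ‖(h.map (Int.castRingHom ℂ)).eval z‖ ≤ 1)
    (h0 : h ≠ 0) : ∃ (k : ℕ) (σ : ℤ), (σ = 1 ∨ σ = -1) ∧ h = C σ * X ^ k := by
  classical
  obtain ⟨m, hm, -⟩ := exists_haarOn (d := Fin 1) (K := ⊤) (by simp)
  have := hm.prob
  let emb : ℕ → (Fin 1 → ℤ) := fun k _ => (k : ℤ)
  have hinj : Function.Injective emb := by
    intro k l hkl
    have h1 := congrFun hkl 0
    have h2 : (k : ℤ) = l := h1
    exact_mod_cast h2
  set E : Finset (Fin 1 → ℤ) := h.support.image emb with hE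
  have hev : ∀ x : UnitAddTorus (Fin 1), (h.map (Int.castRingHom ℂ)).eval
      (mFourier (fun _ => 1) x) =
      ∑ n ∈ E, ((h.coeff (n 0).toNat : ℤ) : ℂ) * mFourier n x := by
    intro x
    rw [hE, Finset.sum_image fun a _ b _ hab => hinj hab, eval_map, eval₂_eq_sum, sum_def]
    refine Finset.sum_congr rfl fun k _ => ?_
    have h1 : ∀ k, mFourier (emb k) x = (mFourier (fun _ => (1 : ℤ)) x) ^ k := by
      intro k
      induction k with
      | zero =>
        have : emb 0 = 0 := rfl
        rw [this, mFourier_zero]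
        simp
      | succ k ih =>
        have : emb (k + 1) = emb k + fun _ => 1 := by
          funext i
          simp [emb]
        rw [this, mFourier_add, ih, pow_succ]
    rw [h1]
    simp [emb]
  have h1 := parseval hm E fun n => ((h.coeff (n 0).toNat : ℤ) : ℂ)
  have h2 : ∫ x, ‖∑ n ∈ E, ((h.coeff (n 0).toNat : ℤ) : ℂ) * mFourier n x‖ ^ 2 ∂m ≤ 1 := by
    have h3 : ∀ x, ‖∑ n ∈ E, ((h.coeff (n 0).toNat : ℤ) : ℂ) * mFourier n x‖ ^ 2 ≤ 1 := by
      intro x
      rw [← hev x]
      have h4 := hh (mFourier (fun _ => 1) x) (norm_mF _ _)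
      have := norm_nonneg (eval ((mFourier fun _ => (1 : ℤ)) x) (map (Int.castRingHom ℂ) h))
      nlinarith
    have hcont : Continuous fun x : UnitAddTorus (Fin 1) =>
        ‖∑ n ∈ E, ((h.coeff (n 0).toNat : ℤ) : ℂ) * mFourier n x‖ ^ 2 :=
      (continuous_finsetSum _ fun n _ => continuous_const.mul (mFourier n).continuous).norm.pow 2
    have h5 := integral_mono (μ := m) (f := fun x =>
      ‖∑ n ∈ E, ((h.coeff (n 0).toNat : ℤ) : ℂ) * mFourier n x‖ ^ 2) (g := fun _ => (1 : ℝ))
      (Integrable.of_bound hcont.aestronglyMeasurable 1 (Eventually.of_forall fun x => by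
        rw [Real.norm_eq_abs, abs_of_nonneg (sq_nonneg _)]; exact h3 x))
      (integrable_const _) h3
    simpa using h5
  rw [h1, hE, Finset.sum_image fun a _ b _ hab => hinj hab] at h2
  simp only [emb, Int.toNat_natCast, Complex.norm_intCast, sq_abs] at h2
  have h3 : ∑ k ∈ h.support, (h.coeff k) ^ 2 ≤ 1 := by exact_mod_cast h2
  have hone : ∀ k ∈ h.support, 1 ≤ (h.coeff k) ^ 2 := by
    intro k hk
    have h4 : h.coeff k ≠ 0 := mem_support_iff.1 hk
    have h5 : 0 < (h.coeff k) ^ 2 := by positivity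
    linarith
  obtain ⟨k, hk⟩ := support_nonempty.2 h0
  have huniq : ∀ l ∈ h.support, l = k := by
    intro l hl
    by_contra hne
    have h4 : ({k, l} : Finset ℕ) ⊆ h.support := by
      intro x hx
      rw [Finset.mem_insert, Finset.mem_singleton] at hx
      rcases hx with rfl | rfl
      · exact hk
      · exact hl
    have h5 := Finset.sum_le_sum_of_subset_of_nonneg h4 fun i _ _ => sq_nonneg (h.coeff i)
    rw [Finset.sum_pair (Ne.symm hne)] at h5
    have := hone k hk
    have := hone l hl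
    linarith
  have hsing : h.support = {k} := Finset.eq_singleton_iff_unique_mem.2 ⟨hk, huniq⟩
  have h6 : (h.coeff k) ^ 2 = 1 := by
    rw [hsing, Finset.sum_singleton] at h3
    exact le_antisymm h3 (hone k hk)
  refine ⟨k, h.coeff k, by simpa using h6, ?_⟩
  rw [← monomial_one_right_eq_X_pow, C_mul_monomial, mul_one]
  ext j
  rw [coeff_monomial]
  by_cases hj : k = j
  · rw [if_pos hj, hj]
  · rw [if_neg hj]
    by_contra h7
    exact hj (huniq j (mem_support_iff.2 h7)).symm

end Pool.Agent.HX6.FD
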