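import Pool.Agent.HX6.FD.A

/-! Rigidity of the density of Weyl. -/

set_option autoImplicit false
set_option linter.unusedSectionVars false

namespace Pool.Agent.HX6.FD

open Filter Topology Complex MeasureTheory UnitAddTorus Polynomial Pool.Agent.HX6.ST
open scoped ComplexConjugate

section one

/-- characters of the circle -/
noncomputable def E1 (t : ℤ) (y : UnitAddTorus (Fin 1)) : ℂ := mFourier (fun _ => t) y

theorem E1_add (s t : ℤ) (y : UnitAddTorus (Fin 1)) : E1 (s + t) y = E1 s y * E1 t y := by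
  unfold E1
  have : (fun _ : Fin 1 => s + t) = (fun _ => s) + fun _ => t := rfl
  rw [this, mFourier_add]

theorem E1_zero (y : UnitAddTorus (Fin 1)) : E1 0 y = 1 := by
  unfold E1
  have : (fun _ : Fin 1 => (0 : ℤ)) = 0 := rfl
  rw [this, mFourier_zero]
  rfl

theorem norm_E1 (t : ℤ) (y : UnitAddTorus (Fin 1)) : ‖E1 t y‖ = 1 := norm_mF _ _

theorem E1_ne (t : ℤ) (y : UnitAddTorus (Fin 1)) : E1 t y ≠ 0 := by
  intro h
  have := norm_E1 t y
  rw [h, norm_zero] at this
  norm_num at this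

theorem E1_nat (k : ℕ) (y : UnitAddTorus (Fin 1)) : E1 k y = E1 1 y ^ k := by
  induction k with
  | zero => rw [Nat.cast_zero, E1_zero, pow_zero]
  | succ k ih => rw [Nat.cast_succ, E1_add, ih, pow_succ]

theorem E1_int (t : ℤ) (y : UnitAddTorus (Fin 1)) : E1 t y = E1 1 y ^ t := by
  rcases Int.eq_nat_or_neg t with ⟨k, rfl | rfl⟩
  · rw [E1_nat, zpow_natCast]
  · rw [zpow_neg, zpow_natCast, ← E1_nat]
    have h1 := E1_add (-(k : ℤ)) k y
    rw [neg_add_cancel, E1_zero] at h1
    exact eq_inv_of_mul_eq_one_left h1.symm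

theorem E1_surj {z : ℂ} (hz : ‖z‖ = 1) : ∃ y, E1 1 y = z := by
  have hw : z ∈ Submonoid.unitSphere ℂ := mem_sphere_zero_iff_norm.2 hz
  set w : Circle := ⟨z, hw⟩ with hwd
  refine ⟨fun _ => (AddCircle.homeomorphCircle one_ne_zero).symm w, ?_⟩
  unfold E1
  rw [mF_pr]
  unfold pr
  simp only [Finset.univ_unique, Finset.sum_singleton, one_smul]
  rw [← AddCircle.homeomorphCircle_apply one_ne_zero, Homeomorph.apply_symm_apply]

theorem int_E1 {m : Measure (UnitAddTorus (Fin 1))} (hm : HaarOn ⊤ m) (t : ℤ) :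
    ∫ y, E1 t y ∂m = if t = 0 then 1 else 0 := by
  classical
  unfold E1
  rw [haar_int hm]
  have : ((fun _ : Fin 1 => t) = 0) ↔ t = 0 := by
    constructor
    · intro h; exact congrFun h 0
    · rintro rfl; rfl
  simp only [this]

/-- rigidity in one variable -/
theorem rigid_one {a : ℕ} (k : Fin a → ℤ) (hk : ∀ j, k j ≠ 0) {ι : Type} (E : Finset ι)
    (φ : ι → ℤ) (hφ : Set.InjOn φ E) (c : ι → ℤ)
    (hle : ∀ y, ‖∑ n ∈ E, (c n : ℂ) * E1 (φ n) y‖ ≤ ∏ j, ‖E1 (k j) y - 1‖ ^ 2) :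
    (∀ n ∈ E, c n = 0) ∨ ∃ (l σ : ℤ), (σ = 1 ∨ σ = -1) ∧ ∀ y, ∑ n ∈ E, (c n : ℂ) * E1 (φ n) y =
      σ * E1 l y * ((∏ j, ‖E1 (k j) y - 1‖ ^ 2 : ℝ) : ℂ) := by
  classical
  set M : ℤ := ∑ n ∈ E, |φ n| with hM
  have hMn : ∀ n ∈ E, 0 ≤ φ n + M := fun n hn => by
    have h1 : |φ n| ≤ M := Finset.single_le_sum (f := fun n => |φ n|) (fun n _ => abs_nonneg _) hn
    have := neg_abs_le (φ n)
    linarith
  set F : ℤ[X] := ∑ n ∈ E, C (c n) * X ^ (φ n + M).toNat with hF
  set g : ℤ[X] := ∏ j, (X ^ (k j).natAbs - 1) ^ 2 with hg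
  have hgm : g.Monic := monic_prod_of_monic _ _ fun j _ =>
    (monic_X_pow_sub_C (1 : ℤ) (Int.natAbs_ne_zero.2 (hk j))).pow 2
  -- evaluation
  have hFe : ∀ y, (F.map (Int.castRingHom ℂ)).eval (E1 1 y) =
      E1 M y * ∑ n ∈ E, (c n : ℂ) * E1 (φ n) y := by
    intro y
    rw [hF, Polynomial.map_sum, eval_finsetSum, Finset.mul_sum]
    refine Finset.sum_congr rfl fun n hn => ?_
    rw [Polynomial.map_mul, Polynomial.map_pow, map_X, map_C, eval_mul, eval_C, eval_pow, eval_X,
      ← E1_nat, Int.toNat_of_nonneg (hMn n hn), E1_add]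
    simp only [eq_intCast]
    ring
  have hge : ∀ y, (g.map (Int.castRingHom ℂ)).eval (E1 1 y) =
      ∏ j, (E1 (k j).natAbs y - 1) ^ 2 := by
    intro y
    rw [hg, Polynomial.map_prod, eval_prod]
    refine Finset.prod_congr rfl fun j _ => ?_
    rw [Polynomial.map_pow, Polynomial.map_sub, Polynomial.map_pow, map_X, Polynomial.map_one,
      eval_pow, eval_sub, eval_pow, eval_X, eval_one, E1_nat]
  have habs : ∀ (t : ℤ) y, ‖E1 t.natAbs y - 1‖ = ‖E1 t y - 1‖ := by
    intro t y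
    rcases Int.natAbs_eq t with h | h
    · rw [← h]
    · have h1 : E1 t y * E1 (t.natAbs : ℤ) y = 1 := by
        rw [← E1_add]
        have : t + (t.natAbs : ℤ) = 0 := by omega
        rw [this, E1_zero]
      have h2 : E1 t y - 1 = -(E1 t y) * (E1 (t.natAbs : ℤ) y - 1) := by
        rw [mul_sub, neg_mul, h1]
        ring
      rw [h2, norm_mul, norm_neg, norm_E1, one_mul]
  have hgn : ∀ y, ‖(g.map (Int.castRingHom ℂ)).eval (E1 1 y)‖ = ∏ j, ‖E1 (k j) y - 1‖ ^ 2 := by
    intro y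
    rw [hge, norm_prod]
    refine Finset.prod_congr rfl fun j _ => ?_
    rw [norm_pow, habs]
  have hle' : ∀ z : ℂ, ‖z‖ = 1 → ‖(F.map (Int.castRingHom ℂ)).eval z‖ ≤
      ‖(g.map (Int.castRingHom ℂ)).eval z‖ := by
    intro z hz
    obtain ⟨y, rfl⟩ := E1_surj hz
    rw [hFe, hgn, norm_mul, norm_E1, one_mul]
    exact hle y
  have hg0 : g.map (Int.castRingHom ℂ) ≠ 0 := (hgm.map _).ne_zero
  have hroots : ∀ z, (g.map (Int.castRingHom ℂ)).IsRoot z → ‖z‖ = 1 := by
    intro z hz
    rw [IsRoot.def, hg, Polynomial.map_prod, eval_prod, Finset.prod_eq_zero_iff] at hz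
    obtain ⟨j, -, hj⟩ := hz
    rw [Polynomial.map_pow, Polynomial.map_sub, Polynomial.map_pow, map_X, Polynomial.map_one,
      eval_pow, eval_sub, eval_pow, eval_X, eval_one] at hj
    have h1 : z ^ (k j).natAbs = 1 := sub_eq_zero.1 (pow_eq_zero_iff two_ne_zero |>.1 hj)
    exact norm_eq_one_of_pow_eq_one h1 (Int.natAbs_ne_zero.2 (hk j))
  have hdvd := dvd_of_le _ _ _ rfl hg0 hroots hle'
  rw [Polynomial.map_dvd_map _ Int.cast_injective hgm] at hdvd
  obtain ⟨h, hh⟩ := hdvd
  have hh1 : ∀ z : ℂ, ‖z‖ = 1 → ‖(h.map (Int.castRingHom ℂ)).eval z‖ ≤ 1 := by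
    intro z hz
    refine circle_lim (p := fun z => ‖(h.map (Int.castRingHom ℂ)).eval z‖ ≤ 1) hz
      (isClosed_le (h.map (Int.castRingHom ℂ)).continuous.norm continuous_const)
      (Finset.finite_toSet (g.map (Int.castRingHom ℂ)).roots.toFinset) fun w hw hw' => ?_
    have h1 : (g.map (Int.castRingHom ℂ)).eval w ≠ 0 := by
      intro h2
      apply hw'
      rw [Finset.mem_coe, Multiset.mem_toFinset]
      exact (mem_roots hg0).2 h2
    have h2 := hle' w hw
    rw [hh, Polynomial.map_mul, eval_mul, norm_mul] at h2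
    have h3 : 0 < ‖(g.map (Int.castRingHom ℂ)).eval w‖ := norm_pos_iff.2 h1
    nlinarith
  by_cases h0 : h = 0
  · left
    intro n hn
    have h1 : F = 0 := by rw [hh, h0, mul_zero]
    have h2 : F.coeff (φ n + M).toNat = c n := by
      rw [hF, finsetSum_coeff]
      rw [Finset.sum_eq_single n]
      · rw [coeff_C_mul_X_pow, if_pos rfl]
      · intro n' hn' hne
        rw [coeff_C_mul_X_pow, if_neg]
        intro h3
        apply hne
        refine hφ hn' hn ?_
        have := hMn n hn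
        have := hMn n' hn'
        omega
      · intro h; exact absurd hn h
    rw [← h2, h1, coeff_zero]
  · right
    obtain ⟨e, σ, hσ, he⟩ := small_int hh1 h0
    refine ⟨(e : ℤ) - M + ∑ j, ((k j).natAbs : ℤ), σ * (-1) ^ a, ?_, fun y => ?_⟩
    · rcases hσ with rfl | rfl <;> rcases neg_one_pow_eq_or ℤ a with h | h <;> rw [h] <;> simp
    · have h1 := hFe y
      rw [hh, he, Polynomial.map_mul, Polynomial.map_mul, Polynomial.map_pow, map_X, map_C,
        eval_mul, eval_mul, eval_C, eval_pow, eval_X, ← E1_nat, hge] at h1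
      have h2 : ∏ j, (E1 ((k j).natAbs : ℤ) y - 1) ^ 2 =
          (-1) ^ a * E1 (∑ j, ((k j).natAbs : ℤ)) y *
            ((∏ j, ‖E1 (k j) y - 1‖ ^ 2 : ℝ) : ℂ) := by
        have h3 : ∀ j, (E1 ((k j).natAbs : ℤ) y - 1) ^ 2 =
            -1 * E1 ((k j).natAbs : ℤ) y * ((‖E1 (k j) y - 1‖ ^ 2 : ℝ) : ℂ) := by
          intro j
          rw [← habs, ← Complex.normSq_eq_norm_sq, ← Complex.mul_conj, map_sub, map_one]
          have h4 : E1 ((k j).natAbs : ℤ) y * conj (E1 ((k j).natAbs : ℤ) y) = 1 := by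
            rw [Complex.mul_conj, Complex.normSq_eq_norm_sq, norm_E1]
            simp
          linear_combination (E1 ((k j).natAbs : ℤ) y - 1) * h4
        simp only [h3]
        rw [Finset.prod_mul_distrib, Finset.prod_mul_distrib, Finset.prod_const,
          Finset.card_univ, Fintype.card_fin]
        congr 1
        · congr 1
          have h5 : ∀ s : Finset (Fin a), ∏ j ∈ s, E1 ((k j).natAbs : ℤ) y =
              E1 (∑ j ∈ s, ((k j).natAbs : ℤ)) y := by
            intro s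
            induction s using Finset.induction_on with
            | empty => rw [Finset.prod_empty, Finset.sum_empty, E1_zero]
            | insert j s hj ih => rw [Finset.prod_insert hj, Finset.sum_insert hj, E1_add, ih]
          exact h5 _
        · push_cast
          rfl
      rw [h2] at h1
      have h6 : E1 (-M) y * E1 M y = 1 := by rw [← E1_add, neg_add_cancel, E1_zero]
      have h7 : ∑ n ∈ E, (c n : ℂ) * E1 (φ n) y = E1 (-M) y *
          (E1 M y * ∑ n ∈ E, (c n : ℂ) * E1 (φ n) y) := by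
        rw [← mul_assoc, h6, one_mul]
      rw [h7, ← h1, E1_add, sub_eq_add_neg, E1_add]
      simp only [eq_intCast]
      push_cast
      ring

end one

end Pool.Agent.HX6.FD
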