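import Pool.Agent.HX6.FD.B

/-! Rigidity of the density of Weyl in several variables. -/

set_option autoImplicit false
set_option linter.unusedSectionVars false

namespace Pool.Agent.HX6.FD

open Filter Topology Complex MeasureTheory UnitAddTorus Polynomial Pool.Agent.HX6.ST
open scoped ComplexConjugate

variable {r a : ℕ}

/-- the pairing of two integer vectors -/
def dt (n N : Fin r → ℤ) : ℤ := ∑ i, n i * N i

theorem dt_sub (n m N : Fin r → ℤ) : dt (n - m) N = dt n N - dt m N := by
  unfold dt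
  rw [← Finset.sum_sub_distrib]
  exact Finset.sum_congr rfl fun i _ => by rw [Pi.sub_apply]; ring

/-- a vector which is not orthogonal to finitely many vectors -/
theorem exists_dt (D : Finset (Fin r → ℤ)) (hD : (0 : Fin r → ℤ) ∉ D) :
    ∃ N : Fin r → ℤ, ∀ d ∈ D, dt d N ≠ 0 := by
  set q : (Fin r → ℤ) → ℤ[X] := fun d => ∑ i, C (d i) * X ^ (i : ℕ) with hq
  have hq0 : ∀ d ∈ D, q d ≠ 0 := by
    intro d hd h0
    apply hD
    have : d = 0 := by
      funext i
      have h1 : (q d).coeff i = d i := by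
        rw [hq]
        simp only [finsetSum_coeff, coeff_C_mul_X_pow]
        rw [Finset.sum_eq_single i]
        · rw [if_pos rfl]
        · intro j _ hj
          rw [if_neg]
          intro h
          exact hj (Fin.ext h.symm)
        · intro h; exact absurd (Finset.mem_univ i) h
      rw [← h1, h0]
      rfl
    rw [← this]
    exact hd
  have hQ : ∏ d ∈ D, q d ≠ 0 := Finset.prod_ne_zero_iff.2 hq0
  obtain ⟨t, ht⟩ : ∃ t : ℤ, (∏ d ∈ D, q d).eval t ≠ 0 := by
    by_contra hcon
    push Not at hcon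
    exact hQ (Polynomial.funext fun t => by rw [hcon t, eval_zero])
  refine ⟨fun i => t ^ (i : ℕ), fun d hd h0 => ?_⟩
  rw [eval_prod, Finset.prod_ne_zero_iff] at ht
  apply ht d hd
  rw [hq, eval_finsetSum]
  simp only [eval_mul, eval_C, eval_pow, eval_X]
  exact h0

/-- the one-parameter subgroup -/
noncomputable def pt (N : Fin r → ℤ) (y : UnitAddTorus (Fin 1)) : UnitAddTorus (Fin r) :=
  fun i => N i • y 0

theorem mF_pt (N n : Fin r → ℤ) (y : UnitAddTorus (Fin 1)) :
    mFourier n (pt N y) = E1 (dt n N) y := by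
  unfold E1
  rw [mF_pr, mF_pr]
  congr 2
  unfold pr pt dt
  simp only [Finset.univ_unique, Finset.sum_singleton, Fin.default_eq_zero]
  rw [Finset.sum_smul]
  refine Finset.sum_congr rfl fun i _ => ?_
  rw [smul_smul]

/-- the trigonometric polynomial of a function with finite support -/
noncomputable def ev (c : (Fin r → ℤ) →₀ ℤ) (x : UnitAddTorus (Fin r)) : ℂ :=
  ∑ n ∈ c.support, (c n : ℂ) * mFourier n x

theorem continuous_ev (c : (Fin r → ℤ) →₀ ℤ) : Continuous (ev c) := by
  unfold ev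
  exact continuous_finsetSum _ fun n _ => continuous_const.mul (mFourier n).continuous

/-- the density of Weyl -/
noncomputable def weyl (α : Fin a → Fin r → ℤ) (x : UnitAddTorus (Fin r)) : ℝ :=
  ∏ j, ‖mFourier (α j) x - 1‖ ^ 2

theorem continuous_weyl (α : Fin a → Fin r → ℤ) : Continuous (weyl α) := by
  unfold weyl
  exact continuous_finsetProd _ fun j _ =>
    (((mFourier (α j)).continuous.sub continuous_const).norm.pow 2)

theorem weyl_nonneg (α : Fin a → Fin r → ℤ) (x : UnitAddTorus (Fin r)) : 0 ≤ weyl α x :=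
  Finset.prod_nonneg fun j _ => sq_nonneg _

theorem ev_eq (c : (Fin r → ℤ) →₀ ℤ) (x : UnitAddTorus (Fin r)) :
    ev c x = (c.sum fun n z => z • (mFourier n : C(UnitAddTorus (Fin r), ℂ))) x := by
  unfold ev Finsupp.sum
  rw [ContinuousMap.sum_apply]
  refine Finset.sum_congr rfl fun n _ => ?_
  rw [ContinuousMap.smul_apply, zsmul_eq_mul]

theorem ev_ext {f : UnitAddTorus (Fin r) → ℂ} (hf : Continuous f)
    (h : (⟨f, hf⟩ : C(UnitAddTorus (Fin r), ℂ)) ∈ Submodule.span ℤ
      (Set.range (mFourier : (Fin r → ℤ) → C(UnitAddTorus (Fin r), ℂ)))) :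
    ∃ P : (Fin r → ℤ) →₀ ℤ, ∀ x, f x = ev P x := by
  rw [Finsupp.mem_span_range_iff_exists_finsupp] at h
  obtain ⟨P, hP⟩ := h
  refine ⟨P, fun x => ?_⟩
  rw [ev_eq, hP]
  rfl

theorem span_mul (α : Fin r → ℤ) (f : C(UnitAddTorus (Fin r), ℂ))
    (h : f ∈ Submodule.span ℤ
      (Set.range (mFourier : (Fin r → ℤ) → C(UnitAddTorus (Fin r), ℂ)))) :
    f * mFourier α ∈ Submodule.span ℤ
      (Set.range (mFourier : (Fin r → ℤ) → C(UnitAddTorus (Fin r), ℂ))) := by
  induction h using Submodule.span_induction with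
  | mem x hx =>
    obtain ⟨n, rfl⟩ := hx
    apply Submodule.subset_span
    refine ⟨n + α, ?_⟩
    ext x
    rw [mFourier_add]
    rfl
  | zero => rw [zero_mul]; exact Submodule.zero_mem _
  | add x y _ _ hx hy => rw [add_mul]; exact Submodule.add_mem _ hx hy
  | smul c x _ hx => rw [smul_mul_assoc]; exact Submodule.smul_mem _ _ hx

theorem weyl_span (α : Fin a → Fin r → ℤ) (s : Finset (Fin a)) :
    (∏ j ∈ s, (2 - mFourier (α j) - mFourier (-α j)) : C(UnitAddTorus (Fin r), ℂ)) ∈
      Submodule.span ℤ (Set.range (mFourier : (Fin r → ℤ) → C(UnitAddTorus (Fin r), ℂ))) := by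
  classical
  induction s using Finset.induction_on with
  | empty =>
    rw [Finset.prod_empty, ← mFourier_zero]
    exact Submodule.subset_span ⟨0, rfl⟩
  | insert j s hj ih =>
    rw [Finset.prod_insert hj]
    have h1 : (2 - mFourier (α j) - mFourier (-α j)) *
        (∏ j ∈ s, (2 - mFourier (α j) - mFourier (-α j)) : C(UnitAddTorus (Fin r), ℂ)) =
        (2 : ℤ) • (∏ j ∈ s, (2 - mFourier (α j) - mFourier (-α j)) : C(UnitAddTorus (Fin r), ℂ)) -
        (∏ j ∈ s, (2 - mFourier (α j) - mFourier (-α j))) * mFourier (α j) -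
        (∏ j ∈ s, (2 - mFourier (α j) - mFourier (-α j))) * mFourier (-α j) := by
      rw [zsmul_eq_mul]
      push_cast
      ring
    rw [h1]
    exact Submodule.sub_mem _ (Submodule.sub_mem _ (Submodule.smul_mem _ _ ih) (span_mul _ _ ih))
      (span_mul _ _ ih)

theorem weyl_factor (n : Fin r → ℤ) (x : UnitAddTorus (Fin r)) :
    ((‖mFourier n x - 1‖ ^ 2 : ℝ) : ℂ) = 2 - mFourier n x - mFourier (-n) x := by
  rw [← Complex.normSq_eq_norm_sq, ← Complex.mul_conj, map_sub, map_one, mFourier_neg]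
  have h4 : mFourier n x * conj (mFourier n x) = 1 := by
    rw [Complex.mul_conj, Complex.normSq_eq_norm_sq, norm_mF]
    simp
  linear_combination h4

/-- the density of Weyl is a trigonometric polynomial with integer coefficients -/
theorem exists_weyl (α : Fin a → Fin r → ℤ) :
    ∃ P : (Fin r → ℤ) →₀ ℤ, ∀ x, (weyl α x : ℂ) = ev P x := by
  have hc : Continuous fun x => (weyl α x : ℂ) :=
    Complex.continuous_ofReal.comp (continuous_weyl α)
  refine ev_ext hc ?_
  have h1 : (⟨fun x => (weyl α x : ℂ), hc⟩ : C(UnitAddTorus (Fin r), ℂ)) =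
      ∏ j ∈ Finset.univ, (2 - mFourier (α j) - mFourier (-α j)) := by
    ext x
    rw [ContinuousMap.prod_apply]
    change ((weyl α x : ℝ) : ℂ) = _
    unfold weyl
    push_cast
    refine Finset.prod_congr rfl fun j _ => ?_
    have := weyl_factor (α j) x
    push_cast at this
    rw [this]
    rfl
  rw [h1]
  exact weyl_span α _

theorem coef_one {m1 : Measure (UnitAddTorus (Fin 1))} (hm1 : HaarOn ⊤ m1)
    (c : (Fin r → ℤ) →₀ ℤ) (φ : (Fin r → ℤ) → ℤ) (t : ℤ) :
    ∫ y, (∑ n ∈ c.support, (c n : ℂ) * E1 (φ n) y) * E1 (-t) y ∂m1 =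
      ((∑ n ∈ c.support, if φ n = t then c n else 0 : ℤ) : ℂ) := by
  have := hm1.prob
  have h1 : ∀ y, (∑ n ∈ c.support, (c n : ℂ) * E1 (φ n) y) * E1 (-t) y =
      ∑ n ∈ c.support, (c n : ℂ) * E1 (φ n - t) y := by
    intro y
    rw [Finset.sum_mul]
    refine Finset.sum_congr rfl fun n _ => ?_
    rw [sub_eq_add_neg, E1_add]
    ring
  simp only [h1]
  have hint : ∀ n ∈ c.support, Integrable (fun y => (c n : ℂ) * E1 (φ n - t) y) m1 :=
    fun n _ => (integrable_cont m1 (mFourier fun _ => φ n - t)).const_mul _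
  rw [integral_finsetSum _ hint]
  push_cast
  refine Finset.sum_congr rfl fun n _ => ?_
  rw [integral_const_mul, int_E1 hm1]
  by_cases h : φ n = t
  · rw [if_pos h, if_pos (sub_eq_zero.2 h), mul_one]
  · rw [if_neg h, if_neg (sub_ne_zero.2 h), mul_zero]

theorem sum_inj {c : (Fin r → ℤ) →₀ ℤ} {φ : (Fin r → ℤ) → ℤ} (hφ : Set.InjOn φ c.support)
    {n : Fin r → ℤ} (hn : n ∈ c.support) :
    (∑ k ∈ c.support, if φ k = φ n then c k else 0) = c n := by
  rw [Finset.sum_eq_single n]
  · rw [if_pos rfl]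
  · intro k hk hkn
    rw [if_neg]
    intro h
    exact hkn (hφ hk hn h)
  · intro h; exact absurd hn h

/-- **rigidity in several variables** -/
theorem rigid (α : Fin a → Fin r → ℤ) (hα : ∀ j, α j ≠ 0) (P c : (Fin r → ℤ) →₀ ℤ)
    (hP : ∀ x, (weyl α x : ℂ) = ev P x) (hc : c ≠ 0) (hle : ∀ x, ‖ev c x‖ ≤ weyl α x) :
    ∃ (m : Fin r → ℤ) (σ : ℤ), (σ = 1 ∨ σ = -1) ∧ ∀ n, c n = σ * P (n - m) := by
  classical
  set D : Finset (Fin r → ℤ) := ((Finset.univ.image α) ∪
    (Finset.image₂ (fun u v => u - v) c.support c.support) ∪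
    (Finset.image₂ (fun u v => u - v) P.support P.support) ∪
    (Finset.image₂ (fun u v => u - v) (Finset.image₂ (fun u v => u - v) c.support P.support)
      (Finset.image₂ (fun u v => u - v) c.support P.support))).erase 0 with hD
  obtain ⟨N, hN⟩ := exists_dt D (by rw [hD]; exact Finset.notMem_erase _ _)
  have hk : ∀ j, dt (α j) N ≠ 0 := fun j => hN _ (by
    rw [hD, Finset.mem_erase]
    refine ⟨hα j, ?_⟩
    simp only [Finset.mem_union, Finset.mem_image, Finset.mem_univ, true_and]
    exact Or.inl (Or.inl (Or.inl ⟨j, rfl⟩)))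
  have hinj : ∀ (S : Finset (Fin r → ℤ)), (∀ u ∈ S, ∀ v ∈ S, u - v ≠ 0 → u - v ∈ D) →
      ∀ u ∈ S, ∀ v ∈ S, dt u N = dt v N → u = v := by
    intro S hS u hu v hv huv
    by_contra hne
    have h1 : u - v ≠ 0 := sub_ne_zero.2 hne
    apply hN _ (hS u hu v hv h1)
    rw [dt_sub, huv, sub_self]
  have i1 : Set.InjOn (fun n => dt n N) c.support := by
    intro u hu v hv h
    refine hinj c.support (fun u hu v hv h0 => ?_) u hu v hv h
    rw [hD, Finset.mem_erase]
    refine ⟨h0, ?_⟩
    simp only [Finset.mem_union]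
    exact Or.inl (Or.inl (Or.inr (Finset.mem_image₂.2 ⟨u, hu, v, hv, rfl⟩)))
  have i2 : Set.InjOn (fun n => dt n N) P.support := by
    intro u hu v hv h
    refine hinj P.support (fun u hu v hv h0 => ?_) u hu v hv h
    rw [hD, Finset.mem_erase]
    refine ⟨h0, ?_⟩
    simp only [Finset.mem_union]
    exact Or.inl (Or.inr (Finset.mem_image₂.2 ⟨u, hu, v, hv, rfl⟩))
  have i3 : ∀ u ∈ Finset.image₂ (fun u v => u - v) c.support P.support,
      ∀ v ∈ Finset.image₂ (fun u v => u - v) c.support P.support, dt u N = dt v N → u = v :=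
    hinj _ (fun u hu v hv h0 => by
      rw [hD, Finset.mem_erase]
      refine ⟨h0, ?_⟩
      simp only [Finset.mem_union]
      exact Or.inr (Finset.mem_image₂.2 ⟨u, hu, v, hv, rfl⟩))
  -- the restriction to the one-parameter subgroup
  have hrest : ∀ (q : (Fin r → ℤ) →₀ ℤ) y, ev q (pt N y) =
      ∑ n ∈ q.support, (q n : ℂ) * E1 (dt n N) y := by
    intro q y
    unfold ev
    exact Finset.sum_congr rfl fun n _ => by rw [mF_pt]
  have hw : ∀ y, weyl α (pt N y) = ∏ j, ‖E1 (dt (α j) N) y - 1‖ ^ 2 := by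
    intro y
    unfold weyl
    exact Finset.prod_congr rfl fun j _ => by rw [mF_pt]
  have h1 := rigid_one (fun j => dt (α j) N) hk c.support (fun n => dt n N) i1 c (fun y => by
    rw [← hrest, ← hw]
    exact hle _)
  rcases h1 with h1 | ⟨l, σ, hσ, h1⟩
  · exfalso
    apply hc
    ext n
    by_cases hn : n ∈ c.support
    · rw [h1 n hn]; rfl
    · rw [Finsupp.notMem_support_iff.1 hn]; rfl
  obtain ⟨m1, hm1, -⟩ := exists_haarOn (d := Fin 1) (K := ⊤) (by simp)
  have := hm1.prob
  have hcmp : ∀ t : ℤ, (∑ n ∈ c.support, if dt n N = t then c n else 0) =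
      σ * ∑ n ∈ P.support, if dt n N = t - l then P n else 0 := by
    intro t
    have h2 := coef_one hm1 c (fun n => dt n N) t
    have h3 := coef_one hm1 P (fun n => dt n N) (t - l)
    have h4 : ∀ y, (∑ n ∈ c.support, (c n : ℂ) * E1 (dt n N) y) * E1 (-t) y =
        σ * ((∑ n ∈ P.support, (P n : ℂ) * E1 (dt n N) y) * E1 (-(t - l)) y) := by
      intro y
      rw [h1 y, ← hw, hP, hrest]
      have h5 : E1 (-(t - l)) y = E1 l y * E1 (-t) y := by
        rw [← E1_add]
        congr 1
        ring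
      rw [h5]
      ring
    simp only [h4] at h2
    rw [integral_const_mul, h3] at h2
    exact_mod_cast h2.symm
  -- the shift
  obtain ⟨n0, hn0⟩ := Finsupp.support_nonempty_iff.2 hc
  have hex : ∀ n ∈ c.support, ∃ n' ∈ P.support, dt n' N = dt n N - l := by
    intro n hn
    have h2 := hcmp (dt n N)
    rw [sum_inj i1 hn] at h2
    by_contra hcon
    push Not at hcon
    rw [Finset.sum_eq_zero fun k hk => if_neg (hcon k hk), mul_zero] at h2
    exact (Finsupp.mem_support_iff.1 hn) h2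
  obtain ⟨n1, hn1, hl1⟩ := hex n0 hn0
  set m := n0 - n1 with hm
  have hl : l = dt m N := by rw [hm, dt_sub]; omega
  have hmm : m ∈ Finset.image₂ (fun u v => u - v) c.support P.support :=
    Finset.mem_image₂.2 ⟨n0, hn0, n1, hn1, rfl⟩
  refine ⟨m, σ, hσ, fun n => ?_⟩
  by_cases hn : n ∈ c.support
  · obtain ⟨n', hn', h2⟩ := hex n hn
    have h3 : n - n' = m := i3 _ (Finset.mem_image₂.2 ⟨n, hn, n', hn', rfl⟩) _ hmm (by
      rw [dt_sub, ← hl]; omega)
    have h4 : n' = n - m := by rw [← h3]; abel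
    have h5 := hcmp (dt n N)
    rw [sum_inj i1 hn, ← h2, sum_inj i2 hn'] at h5
    rw [h5, h4]
  · rw [Finsupp.notMem_support_iff.1 hn]
    by_cases hP0 : n - m ∈ P.support
    · exfalso
      have h5 := hcmp (dt n N)
      have h6 : dt n N - l = dt (n - m) N := by rw [dt_sub, hl]
      rw [h6, sum_inj i2 hP0] at h5
      have h7 : σ * P (n - m) ≠ 0 := mul_ne_zero (by rcases hσ with rfl | rfl <;> norm_num)
        (Finsupp.mem_support_iff.1 hP0)
      rw [← h5] at h7
      obtain ⟨n2, hn2, h8⟩ := Finset.exists_ne_zero_of_sum_ne_zero h7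
      have h9 : dt n2 N = dt n N := by
        by_contra h10
        rw [if_neg h10] at h8
        exact h8 rfl
      have h10 : n2 - (n - m) = m := i3 _ (Finset.mem_image₂.2 ⟨n2, hn2, _, hP0, rfl⟩) _ hmm (by
        rw [dt_sub, dt_sub]; omega)
      have h11 : n2 = n := by
        have h12 := sub_eq_iff_eq_add.1 h10
        rw [h12]
        abel
      exact hn (h11 ▸ hn2)
    · rw [Finsupp.notMem_support_iff.1 hP0, mul_zero]

end Pool.Agent.HX6.FD
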