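import Pool.Agent.HX6.FD.C

/-! The density of Weyl is determined by finitely many coefficients. -/

set_option autoImplicit false
set_option linter.unusedSectionVars false

namespace Pool.Agent.HX6.FD

open Filter Topology Complex MeasureTheory UnitAddTorus Pool.Agent.HX6.ST
open scoped ComplexConjugate

variable {r a : ℕ}

section lim

variable {X : Type} [TopologicalSpace X] [CompactSpace X]

/-- limits of uniformly bounded linear functionals along an ultrafilter -/
theorem lim_fun (U : Ultrafilter ℕ) (T : ℕ → C(X, ℂ) →ₗ[ℂ] ℂ) (B : ℝ)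
    (hB : ∀ k f, ‖T k f‖ ≤ B * ‖f‖) :
    ∃ L : C(X, ℂ) →ₗ[ℂ] ℂ, (∀ f, Tendsto (fun k => T k f) U (𝓝 (L f))) ∧
      ∀ f, ‖L f‖ ≤ B * ‖f‖ := by
  have h1 : ∀ f : C(X, ℂ), ∃ z, Tendsto (fun k => T k f) U (𝓝 z) := by
    intro f
    obtain ⟨z, -, hz⟩ := (isCompact_closedBall (0 : ℂ) (B * ‖f‖)).ultrafilter_le_nhds
      (U.map fun k => T k f) (by
        rw [le_principal_iff]
        change _ ∈ Filter.map _ _
        rw [mem_map]
        refine univ_mem' fun k => ?_
        change T k f ∈ Metric.closedBall (0 : ℂ) (B * ‖f‖)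
        rw [mem_closedBall_zero_iff]
        exact hB k f)
    exact ⟨z, hz⟩
  choose L hL using h1
  refine ⟨{ toFun := L
            map_add' := fun f g => ?_
            map_smul' := fun c f => ?_ }, hL, fun f => ?_⟩
  · refine tendsto_nhds_unique (hL (f + g)) ?_
    refine ((hL f).add (hL g)).congr fun k => ?_
    rw [map_add]
  · refine tendsto_nhds_unique (hL (c • f)) ?_
    refine ((hL f).const_mul c).congr fun k => ?_
    rw [map_smul, smul_eq_mul]
  · exact le_of_tendsto (hL f).norm (Eventually.of_forall fun k => hB k f)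

end lim

/-- from the inequality of integrals to the pointwise inequality -/
theorem pointwise {m : Measure (UnitAddTorus (Fin r))} [IsFiniteMeasure m]
    (hs : ∀ g : UnitAddTorus (Fin r) → ℂ, Continuous g → g =ᵐ[m] 0 →
      ∀ x ∈ (⊤ : AddSubgroup (UnitAddTorus (Fin r))), g x = 0)
    {f : UnitAddTorus (Fin r) → ℂ} (hf : Continuous f) {p : UnitAddTorus (Fin r) → ℝ}
    (hp : Continuous p) (hp0 : ∀ x, 0 ≤ p x)
    (h : ∀ g : C(UnitAddTorus (Fin r), ℂ), ‖∫ x, g x * f x ∂m‖ ≤ ∫ x, ‖g x‖ * p x ∂m)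
    (x : UnitAddTorus (Fin r)) : ‖f x‖ ≤ p x := by
  set M : UnitAddTorus (Fin r) → ℝ := fun x => max 0 (‖f x‖ - p x) with hM
  have hMc : Continuous M := continuous_const.max (hf.norm.sub hp)
  have hM0 : ∀ x, 0 ≤ M x := fun x => le_max_left _ _
  have hg : Continuous fun x => conj (f x) * (M x : ℂ) :=
    (Complex.continuous_conj.comp hf).mul (Complex.continuous_ofReal.comp hMc)
  have h1 := h ⟨_, hg⟩
  simp only [ContinuousMap.coe_mk] at h1
  have h2 : ∀ x, conj (f x) * (M x : ℂ) * f x = ((‖f x‖ ^ 2 * M x : ℝ) : ℂ) := by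
    intro x
    push_cast
    rw [← Complex.conj_mul']
    ring
  have h3 : ∀ x, ‖conj (f x) * (M x : ℂ)‖ * p x = ‖f x‖ * M x * p x := by
    intro x
    rw [norm_mul, RCLike.norm_conj, Complex.norm_real, Real.norm_eq_abs, abs_of_nonneg (hM0 x)]
  simp only [h2, h3] at h1
  rw [integral_complex_ofReal, Complex.norm_real, Real.norm_eq_abs,
    abs_of_nonneg (integral_nonneg fun x => mul_nonneg (sq_nonneg _) (hM0 x))] at h1
  have hbd : ∀ q : UnitAddTorus (Fin r) → ℝ, Continuous q → Integrable q m := by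
    intro q hq
    obtain ⟨C, hC⟩ := (isCompact_univ (X := UnitAddTorus (Fin r))).exists_bound_of_continuousOn
      hq.continuousOn
    exact Integrable.of_bound hq.aestronglyMeasurable C
      (Eventually.of_forall fun x => hC x (Set.mem_univ x))
  have i1 : Integrable (fun x => ‖f x‖ ^ 2 * M x) m := hbd _ ((hf.norm.pow 2).mul hMc)
  have i2 : Integrable (fun x => ‖f x‖ * M x * p x) m := hbd _ ((hf.norm.mul hMc).mul hp)
  have h4 : ∫ x, (‖f x‖ ^ 2 * M x - ‖f x‖ * M x * p x) ∂m ≤ 0 := by
    rw [integral_sub i1 i2]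
    linarith
  have h5 : ∀ x, 0 ≤ ‖f x‖ ^ 2 * M x - ‖f x‖ * M x * p x := by
    intro x
    have h6 : ‖f x‖ ^ 2 * M x - ‖f x‖ * M x * p x = ‖f x‖ * (M x * (‖f x‖ - p x)) := by ring
    rw [h6]
    refine mul_nonneg (norm_nonneg _) ?_
    by_cases h7 : ‖f x‖ - p x ≤ 0
    · have : M x = 0 := max_eq_left h7
      rw [this, zero_mul]
    · push Not at h7
      exact mul_nonneg (hM0 x) h7.le
  have h6 : ∫ x, (‖f x‖ ^ 2 * M x - ‖f x‖ * M x * p x) ∂m = 0 :=
    le_antisymm h4 (integral_nonneg h5)
  rw [integral_eq_zero_iff_of_nonneg h5 (i1.sub i2)] at h6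
  have h7 : (fun x => ((‖f x‖ ^ 2 * M x - ‖f x‖ * M x * p x : ℝ) : ℂ)) =ᵐ[m] 0 := by
    filter_upwards [h6] with x hx
    rw [hx]
    simp
  have h8 : ((‖f x‖ ^ 2 * M x - ‖f x‖ * M x * p x : ℝ) : ℂ) = 0 :=
    hs (fun x => ((‖f x‖ ^ 2 * M x - ‖f x‖ * M x * p x : ℝ) : ℂ)) (Complex.continuous_ofReal.comp
      (((hf.norm.pow 2).mul hMc).sub ((hf.norm.mul hMc).mul hp))) h7 x (AddSubgroup.mem_top x)
  have h9 : ‖f x‖ ^ 2 * M x - ‖f x‖ * M x * p x = 0 := by
    exact_mod_cast h8
  by_contra hcon
  push Not at hcon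
  have h10 : M x = ‖f x‖ - p x := max_eq_right (by linarith)
  have h11 : 0 < ‖f x‖ := lt_of_le_of_lt (hp0 x) hcon
  have h12 : ‖f x‖ ^ 2 * M x - ‖f x‖ * M x * p x = ‖f x‖ * (‖f x‖ - p x) ^ 2 := by
    rw [h10]
    ring
  rw [h12] at h9
  have h13 : 0 < ‖f x‖ * (‖f x‖ - p x) ^ 2 := mul_pos h11 (by
    have : 0 < ‖f x‖ - p x := by linarith
    positivity)
  linarith

/-- coefficients of a trigonometric polynomial -/
theorem int_ev {m : Measure (UnitAddTorus (Fin r))} (hm : HaarOn ⊤ m) (P : (Fin r → ℤ) →₀ ℤ)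
    (n : Fin r → ℤ) : ∫ x, mFourier n x * ev P x ∂m = (P (-n) : ℂ) := by
  classical
  have := hm.prob
  have h1 : ∀ x, mFourier n x * ev P x = ∑ k ∈ P.support, (P k : ℂ) * mFourier (n + k) x := by
    intro x
    unfold ev
    rw [Finset.mul_sum]
    refine Finset.sum_congr rfl fun k _ => ?_
    rw [mFourier_add]
    ring
  simp only [h1]
  rw [integral_finsetSum _ fun k _ => (integrable_cont m (mFourier _)).const_mul _]
  simp only [integral_const_mul, haar_int hm]
  by_cases h : -n ∈ P.support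
  · rw [Finset.sum_eq_single (-n)]
    · rw [add_neg_cancel, if_pos rfl, mul_one]
    · intro k _ hk
      rw [if_neg, mul_zero]
      intro h0
      exact hk (neg_eq_of_add_eq_zero_right h0).symm
    · intro h'; exact absurd h h'
  · rw [Finsupp.notMem_support_iff.1 h, Int.cast_zero]
    refine Finset.sum_eq_zero fun k hk => ?_
    rw [if_neg, mul_zero]
    intro h0
    apply h
    rw [neg_eq_of_add_eq_zero_right h0]
    exact hk

theorem weyl_symm {m : Measure (UnitAddTorus (Fin r))} (hm : HaarOn ⊤ m) {α : Fin a → Fin r → ℤ}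
    {P : (Fin r → ℤ) →₀ ℤ} (hP : ∀ x, (weyl α x : ℂ) = ev P x) (n : Fin r → ℤ) :
    P (-n) = P n := by
  have h1 := int_ev hm P n
  have h2 := int_ev hm P (-n)
  rw [neg_neg] at h2
  have h3 : conj (∫ x, mFourier n x * ev P x ∂m) = ∫ x, mFourier (-n) x * ev P x ∂m := by
    rw [← integral_conj]
    refine integral_congr_ae (Eventually.of_forall fun x => ?_)
    simp only
    rw [map_mul, ← hP, Complex.conj_ofReal, mFourier_neg]
  rw [h1, h2, map_intCast] at h3
  exact_mod_cast h3

/-- **finite determination** -/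
theorem determined (α : Fin a → Fin r → ℤ) (hα : ∀ j, α j ≠ 0)
    {m : Measure (UnitAddTorus (Fin r))} (hm : HaarOn ⊤ m)
    (hs : ∀ g : UnitAddTorus (Fin r) → ℂ, Continuous g → g =ᵐ[m] 0 →
      ∀ x ∈ (⊤ : AddSubgroup (UnitAddTorus (Fin r))), g x = 0)
    (P : (Fin r → ℤ) →₀ ℤ) (hP : ∀ x, (weyl α x : ℂ) = ev P x) :
    ∃ F : Finset (Fin r → ℤ), ∀ μ : Measure (UnitAddTorus (Fin r)), IsFiniteMeasure μ →
      (∀ n, ∃ c : ℤ, fc mFourier μ n = c) → (∀ n ∈ F, fc mFourier μ n = P n) →
      ∀ n, fc mFourier μ n ≠ 0 → ∃ (p : Fin r → ℤ) (σ : ℤ), P p ≠ 0 ∧ (σ = 1 ∨ σ = -1) ∧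
        fc mFourier μ (n - p) = σ * fc mFourier μ 0 := by
  classical
  have hprob := hm.prob
  have hsym := weyl_symm hm hP
  by_contra hcon
  set F : ℕ → Finset (Fin r → ℤ) := fun k => Finset.Icc (fun _ => -(k : ℤ)) (fun _ => (k : ℤ))
    with hF
  have hcon' : ∀ k : ℕ, ∃ μ : Measure (UnitAddTorus (Fin r)), IsFiniteMeasure μ ∧
      (∀ n, ∃ c : ℤ, fc mFourier μ n = c) ∧ (∀ n ∈ F k, fc mFourier μ n = P n) ∧
      ∃ A, fc mFourier μ A ≠ 0 ∧
      ∀ (p : Fin r → ℤ) (σ : ℤ), P p ≠ 0 → (σ = 1 ∨ σ = -1) →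
        fc mFourier μ (A - p) ≠ σ * fc mFourier μ 0 := by
    intro k
    by_contra h1
    apply hcon
    refine ⟨F k, fun μ h2 h3 h4 n hn => ?_⟩
    by_contra h5
    apply h1
    refine ⟨μ, h2, h3, h4, n, hn, fun p σ h6 h7 h8 => h5 ⟨p, σ, h6, h7, h8⟩⟩
  choose μ hfin hint hPF A hne hrel using hcon'
  choose g hg using hint
  have hA : ∀ k, g k (A k) ≠ 0 := by
    intro k h1
    apply hne k
    rw [hg, h1, Int.cast_zero]
  have h0F : ∀ k, (0 : Fin r → ℤ) ∈ F k := by
    intro k
    rw [hF, Finset.mem_Icc]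
    constructor
    · intro i; simp
    · intro i; simp
  have hev : ∀ n : Fin r → ℤ, ∀ᶠ k : ℕ in atTop, n ∈ F k := by
    intro n
    filter_upwards [eventually_ge_atTop (∑ i, (n i).natAbs)] with k hk
    have h1 : ∀ i, (n i).natAbs ≤ k := fun i =>
      (Finset.single_le_sum (f := fun i => (n i).natAbs) (fun _ _ => Nat.zero_le _)
        (Finset.mem_univ i)).trans hk
    rw [hF, Finset.mem_Icc]
    constructor
    · intro i
      have := h1 i
      change -(k : ℤ) ≤ n i
      omega
    · intro i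
      have := h1 i
      change n i ≤ (k : ℤ)
      omega
  have hgF : ∀ k, ∀ n ∈ F k, g k n = P n := by
    intro k n hn
    have h1 := hPF k n hn
    rw [hg] at h1
    exact_mod_cast h1
  have hmass : ∀ k, (μ k).real Set.univ = P 0 := by
    intro k
    have h1 := hPF k 0 (h0F k)
    unfold fc at h1
    rw [mFourier_zero] at h1
    simp only [ContinuousMap.one_apply, integral_const, Complex.real_smul, mul_one] at h1
    exact_mod_cast h1
  set B : ℝ := (P 0 : ℝ) with hB
  have hint_le : ∀ k (q : C(UnitAddTorus (Fin r), ℂ)), ‖∫ x, q x ∂(μ k)‖ ≤ B * ‖q‖ := by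
    intro k q
    have := hfin k
    have h1 := norm_integral_le_of_norm_le_const (μ := μ k) (f := fun x => q x) (C := ‖q‖)
      (Eventually.of_forall fun x => q.norm_coe_le_norm x)
    rw [hmass k, mul_comm] at h1
    exact h1
  have hgle : ∀ k n, |g k n| ≤ P 0 := by
    intro k n
    have := hfin k
    have h1 := hint_le k (mFourier n)
    have h2 : ‖(mFourier n : C(UnitAddTorus (Fin r), ℂ))‖ ≤ 1 := by
      rw [ContinuousMap.norm_le _ zero_le_one]
      intro x
      rw [norm_mF]
    have hB0 : 0 ≤ B := by rw [← hmass k]; exact measureReal_nonneg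
    have h3 := hg k n
    unfold fc at h3
    rw [h3, Complex.norm_intCast] at h1
    have h4 : |(g k n : ℝ)| ≤ B := h1.trans (mul_le_of_le_one_right hB0 h2)
    rw [hB] at h4
    exact_mod_cast h4
  set U : Ultrafilter ℕ := hyperfilter ℕ with hU
  have hUle : (U : Filter ℕ) ≤ atTop := by
    rw [← Nat.cofinite_eq_atTop]
    exact hyperfilter_le_cofinite
  -- the limits of the shifted coefficients
  have hc : ∀ n : Fin r → ℤ, ∃ c : ℤ, ∀ᶠ k in (U : Filter ℕ), g k (A k + n) = c := by
    intro n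
    have h1 := (Ultrafilter.eventually_exists_mem_iff (f := U)
      (P := fun (c : ℤ) k => g k (A k + n) = c) (Set.finite_Icc (-(P 0)) (P 0))).1
      (Eventually.of_forall fun k => ⟨g k (A k + n), by
        rw [Set.mem_Icc]
        exact abs_le.1 (hgle k (A k + n)), rfl⟩)
    obtain ⟨c, -, hc⟩ := h1
    exact ⟨c, hc⟩
  choose c hc using hc
  -- the limits of the functionals
  have hint_add : ∀ k (q q' : C(UnitAddTorus (Fin r), ℂ)),
      ∫ x, (q + q') x ∂(μ k) = ∫ x, q x ∂(μ k) + ∫ x, q' x ∂(μ k) := by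
    intro k q q'
    have := hfin k
    exact integral_add (integrable_cont (μ k) q) (integrable_cont (μ k) q')
  let T1 : ℕ → C(UnitAddTorus (Fin r), ℂ) →ₗ[ℂ] ℂ := fun k =>
    { toFun := fun q => ∫ x, q x ∂(μ k)
      map_add' := fun q q' => hint_add k q q'
      map_smul' := fun z q => integral_const_mul z _ }
  let T2 : ℕ → C(UnitAddTorus (Fin r), ℂ) →ₗ[ℂ] ℂ := fun k =>
    { toFun := fun q => ∫ x, (q * mFourier (A k)) x ∂(μ k)
      map_add' := fun q q' => by rw [add_mul]; exact hint_add k _ _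
      map_smul' := fun z q => by
        rw [smul_mul_assoc]
        exact integral_const_mul z _ }
  have hnorm : ∀ k (q : C(UnitAddTorus (Fin r), ℂ)), ‖q * mFourier (A k)‖ ≤ ‖q‖ := by
    intro k q
    rw [ContinuousMap.norm_le _ (norm_nonneg _)]
    intro x
    rw [ContinuousMap.mul_apply, norm_mul, norm_mF, mul_one]
    exact q.norm_coe_le_norm x
  have hB0 : 0 ≤ B := by
    rw [← hmass 0]
    exact measureReal_nonneg
  obtain ⟨L1, h1, h1'⟩ := lim_fun U T1 B hint_le
  obtain ⟨L2, h2, h2'⟩ := lim_fun U T2 B fun k q =>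
    (hint_le k _).trans (mul_le_mul_of_nonneg_left (hnorm k q) hB0)
  -- the first limit
  have hw : ∀ q : C(UnitAddTorus (Fin r), ℂ), Integrable (fun x => q x * (weyl α x : ℂ)) m :=
    fun q => integrable_cont m (q * ⟨fun x => (weyl α x : ℂ),
      Complex.continuous_ofReal.comp (continuous_weyl α)⟩)
  obtain ⟨S, hS⟩ := (isCompact_univ (X := UnitAddTorus (Fin r))).exists_bound_of_continuousOn
    (continuous_weyl α).continuousOn
  have hL1 : ∀ q, L1 q = ∫ x, q x * (weyl α x : ℂ) ∂m := by
    let L : C(UnitAddTorus (Fin r), ℂ) →ₗ[ℂ] ℂ :=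
      { toFun := fun q => L1 q - ∫ x, q x * (weyl α x : ℂ) ∂m
        map_add' := fun q q' => by
          have h3 : ∫ x, (q + q') x * (weyl α x : ℂ) ∂m =
              ∫ x, q x * (weyl α x : ℂ) ∂m + ∫ x, q' x * (weyl α x : ℂ) ∂m := by
            rw [← integral_add (hw q) (hw q')]
            refine integral_congr_ae (Eventually.of_forall fun x => ?_)
            simp only [ContinuousMap.add_apply]
            ring
          rw [h3, map_add]
          ring
        map_smul' := fun z q => by
          have h3 : ∫ x, (z • q) x * (weyl α x : ℂ) ∂m =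
              z * ∫ x, q x * (weyl α x : ℂ) ∂m := by
            rw [← integral_const_mul]
            refine integral_congr_ae (Eventually.of_forall fun x => ?_)
            simp only [ContinuousMap.smul_apply, smul_eq_mul]
            ring
          rw [h3, map_smul, smul_eq_mul, RingHom.id_apply, smul_eq_mul]
          ring }
    intro q
    have h3 := zero_of_chars (chars_mF (d := Fin r)) L (B + S) (fun q => ?_) (fun n => ?_) q
    · exact sub_eq_zero.1 h3
    · change ‖L1 q - ∫ x, q x * (weyl α x : ℂ) ∂m‖ ≤ _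
      refine (norm_sub_le _ _).trans ?_
      rw [add_mul]
      refine add_le_add (h1' q) ?_
      refine (norm_integral_le_of_norm_le_const (C := S * ‖q‖)
        (Eventually.of_forall fun x => ?_)).trans ?_
      · rw [norm_mul, mul_comm, Complex.norm_real]
        exact mul_le_mul (hS x (Set.mem_univ x)) (q.norm_coe_le_norm x) (norm_nonneg _)
          ((norm_nonneg _).trans (hS x (Set.mem_univ x)))
      · simp
    · change L1 (mFourier n) - ∫ x, mFourier n x * (weyl α x : ℂ) ∂m = 0
      simp only [hP]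
      rw [int_ev hm, hsym, sub_eq_zero]
      refine tendsto_nhds_unique (h1 (mFourier n)) ?_
      refine tendsto_const_nhds.congr' ?_
      filter_upwards [hUle (hev n)] with k hk
      exact (hPF k n hk).symm
  -- the second limit
  have hL2c : ∀ n, L2 (mFourier n) = c n := by
    intro n
    refine tendsto_nhds_unique (h2 (mFourier n)) ?_
    refine tendsto_const_nhds.congr' ?_
    filter_upwards [hc n] with k hk
    change (c n : ℂ) = ∫ x, (mFourier n * mFourier (A k) : C(UnitAddTorus (Fin r), ℂ)) x ∂(μ k)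
    have h3 : (mFourier n * mFourier (A k) : C(UnitAddTorus (Fin r), ℂ)) = mFourier (A k + n) := by
      ext x
      rw [mFourier_add, ContinuousMap.mul_apply, mul_comm]
    rw [h3, ← hk]
    exact (hg k (A k + n)).symm
  have hL2le : ∀ q : C(UnitAddTorus (Fin r), ℂ), ‖L2 q‖ ≤ ∫ x, ‖q x‖ * weyl α x ∂m := by
    intro q
    have hqc : Continuous fun x => ((‖q x‖ : ℝ) : ℂ) :=
      Complex.continuous_ofReal.comp q.continuous.norm
    have h3 := (h1 ⟨_, hqc⟩)
    rw [hL1] at h3
    have h4 : ∫ x, (⟨fun x => ((‖q x‖ : ℝ) : ℂ), hqc⟩ : C(UnitAddTorus (Fin r), ℂ)) x *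
        (weyl α x : ℂ) ∂m = ((∫ x, ‖q x‖ * weyl α x ∂m : ℝ) : ℂ) := by
      rw [← integral_complex_ofReal]
      refine integral_congr_ae (Eventually.of_forall fun x => ?_)
      simp only [ContinuousMap.coe_mk]
      push_cast
      rfl
    rw [h4] at h3
    have h5 := (Complex.continuous_re.tendsto _).comp h3
    rw [Complex.ofReal_re] at h5
    refine le_of_tendsto_of_tendsto (h2 q).norm h5 (Eventually.of_forall fun k => ?_)
    have := hfin k
    simp only [Function.comp_apply]
    change ‖∫ x, (q * mFourier (A k)) x ∂(μ k)‖ ≤ (∫ x, ((‖q x‖ : ℝ) : ℂ) ∂(μ k)).re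
    rw [integral_complex_ofReal, Complex.ofReal_re]
    refine (norm_integral_le_integral_norm _).trans (le_of_eq ?_)
    refine integral_congr_ae (Eventually.of_forall fun x => ?_)
    simp only [ContinuousMap.mul_apply]
    rw [norm_mul, norm_mF, mul_one]
  -- the limit coefficients are square summable
  have hbd : ∀ q : UnitAddTorus (Fin r) → ℝ, Continuous q → Integrable q m := by
    intro q hq
    obtain ⟨C, hC⟩ := (isCompact_univ (X := UnitAddTorus (Fin r))).exists_bound_of_continuousOn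
      hq.continuousOn
    exact Integrable.of_bound hq.aestronglyMeasurable C
      (Eventually.of_forall fun x => hC x (Set.mem_univ x))
  have hsq : ∀ E : Finset (Fin r → ℤ), ∑ n ∈ E, (c n : ℝ) ^ 2 ≤ S ^ 2 := by
    intro E
    set q : C(UnitAddTorus (Fin r), ℂ) := ∑ n ∈ E, (c n : ℂ) • mFourier n with hq
    have h3 := hL2le q
    have h4 : L2 q = ((∑ n ∈ E, (c n : ℝ) ^ 2 : ℝ) : ℂ) := by
      rw [hq, map_sum]
      push_cast
      refine Finset.sum_congr rfl fun n _ => ?_
      rw [map_smul, hL2c, smul_eq_mul]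
      ring
    have hqx : ∀ x, q x = ∑ n ∈ E, (c n : ℂ) * mFourier n x := by
      intro x
      rw [hq, ContinuousMap.sum_apply]
      rfl
    have h5 : ∫ x, ‖q x‖ ^ 2 ∂m = ∑ n ∈ E, (c n : ℝ) ^ 2 := by
      simp only [hqx]
      rw [parseval hm]
      refine Finset.sum_congr rfl fun n _ => ?_
      rw [Complex.norm_intCast, sq_abs]
    rw [h4, Complex.norm_real, Real.norm_eq_abs,
      abs_of_nonneg (Finset.sum_nonneg fun n _ => sq_nonneg _)] at h3
    have i3 : Integrable (fun x => ‖q x‖ ^ 2 / 2) m := hbd _ ((q.continuous.norm.pow 2).div_const 2)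
    have h6 : ∫ x, ‖q x‖ * weyl α x ∂m ≤ ∫ x, (‖q x‖ ^ 2 / 2 + S ^ 2 / 2) ∂m := by
      refine integral_mono (hbd _ (q.continuous.norm.mul (continuous_weyl α)))
        (i3.add (integrable_const _)) fun x => ?_
      have h7 := hS x (Set.mem_univ x)
      rw [Real.norm_eq_abs, abs_of_nonneg (weyl_nonneg α x)] at h7
      have h8 := weyl_nonneg α x
      have h9 : 0 ≤ (‖q x‖ - weyl α x) ^ 2 := sq_nonneg _
      have h10 : weyl α x ^ 2 ≤ S ^ 2 := pow_le_pow_left₀ h8 h7 2
      simp only
      nlinarith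
    rw [integral_add i3 (integrable_const _), integral_div, h5] at h6
    simp only [integral_const, probReal_univ, one_smul] at h6
    linarith
  have hcfin : (Function.support c).Finite := by
    have h3 : Summable fun n => (c n : ℝ) ^ 2 := summable_of_sum_le (fun n => sq_nonneg _) hsq
    have h4 := h3.tendsto_cofinite_zero.eventually (gt_mem_nhds one_pos)
    rw [Filter.eventually_cofinite] at h4
    refine h4.subset fun n hn => ?_
    simp only [Set.mem_setOf_eq, not_lt]
    have h5 : c n ≠ 0 := hn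
    have h6 : 1 ≤ (c n) ^ 2 := by
      have : 0 < (c n) ^ 2 := by positivity
      linarith
    exact_mod_cast h6
  have hc'fin : (Function.support fun n => c (-n)).Finite := by
    refine (hcfin.image fun n => -n).subset fun n hn => ⟨-n, hn, neg_neg n⟩
  set c' : (Fin r → ℤ) →₀ ℤ := Finsupp.ofSupportFinite (fun n => c (-n)) hc'fin with hc'
  have hc'n : ∀ n, c' n = c (-n) := fun n => rfl
  have hevi : ∀ q : C(UnitAddTorus (Fin r), ℂ), Integrable (fun x => q x * ev c' x) m :=
    fun q => integrable_cont m (q * ⟨ev c', continuous_ev c'⟩)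
  obtain ⟨S', hS'⟩ := (isCompact_univ (X := UnitAddTorus (Fin r))).exists_bound_of_continuousOn
    (continuous_ev c').continuousOn
  have hL2 : ∀ q, L2 q = ∫ x, q x * ev c' x ∂m := by
    let L : C(UnitAddTorus (Fin r), ℂ) →ₗ[ℂ] ℂ :=
      { toFun := fun q => L2 q - ∫ x, q x * ev c' x ∂m
        map_add' := fun q q' => by
          have h3 : ∫ x, (q + q') x * ev c' x ∂m =
              ∫ x, q x * ev c' x ∂m + ∫ x, q' x * ev c' x ∂m := by
            rw [← integral_add (hevi q) (hevi q')]
            refine integral_congr_ae (Eventually.of_forall fun x => ?_)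
            simp only [ContinuousMap.add_apply]
            ring
          rw [h3, map_add]
          ring
        map_smul' := fun z q => by
          have h3 : ∫ x, (z • q) x * ev c' x ∂m = z * ∫ x, q x * ev c' x ∂m := by
            rw [← integral_const_mul]
            refine integral_congr_ae (Eventually.of_forall fun x => ?_)
            simp only [ContinuousMap.smul_apply, smul_eq_mul]
            ring
          rw [h3, map_smul, smul_eq_mul, RingHom.id_apply, smul_eq_mul]
          ring }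
    intro q
    have h3 := zero_of_chars (chars_mF (d := Fin r)) L (B + S') (fun q => ?_) (fun n => ?_) q
    · exact sub_eq_zero.1 h3
    · change ‖L2 q - ∫ x, q x * ev c' x ∂m‖ ≤ _
      refine (norm_sub_le _ _).trans ?_
      rw [add_mul]
      refine add_le_add (h2' q) ?_
      refine (norm_integral_le_of_norm_le_const (C := S' * ‖q‖)
        (Eventually.of_forall fun x => ?_)).trans ?_
      · rw [norm_mul, mul_comm]
        exact mul_le_mul (hS' x (Set.mem_univ x)) (q.norm_coe_le_norm x) (norm_nonneg _)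
          ((norm_nonneg _).trans (hS' x (Set.mem_univ x)))
      · simp
    · change L2 (mFourier n) - ∫ x, mFourier n x * ev c' x ∂m = 0
      rw [int_ev hm, hL2c, hc'n, neg_neg, sub_self]
  have hpoint : ∀ x, ‖ev c' x‖ ≤ weyl α x := by
    refine pointwise hs (continuous_ev c') (continuous_weyl α) (weyl_nonneg α) fun q => ?_
    rw [← hL2]
    exact hL2le q
  -- the limit coefficient at zero
  have hc0 : c' 0 ≠ 0 := by
    obtain ⟨k, h4⟩ := (hc 0).exists
    rw [hc'n, neg_zero, ← h4, add_zero]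
    exact hA k
  have hc'0 : c' ≠ 0 := by
    intro h3
    exact hc0 (by rw [h3]; rfl)
  obtain ⟨m', σ, hσ, hm'⟩ := rigid α hα P c' hP hc'0 hpoint
  have h3 : P m' ≠ 0 := by
    intro h4
    apply hc0
    rw [hm' 0, zero_sub, hsym, h4, mul_zero]
  obtain ⟨k, h5⟩ := (hc (-m')).exists
  rw [← hc'n, hm' m', sub_self] at h5
  refine hrel k m' σ h3 hσ ?_
  rw [sub_eq_add_neg, hg, h5, hPF k 0 (h0F k)]
  push_cast
  rfl

end Pool.Agent.HX6.FD
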