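import Pool.Agent.HX6.FD.D

/-! Classification of the measures which agree with the measure of Weyl on a large finite set. -/

set_option autoImplicit false
set_option linter.unusedSectionVars false

namespace Pool.Agent.HX6.FD

open Filter Topology Complex MeasureTheory UnitAddTorus Pool.Agent.HX6.ST
open scoped ComplexConjugate

variable {r a : ℕ}

theorem fc_zero (μ : Measure (UnitAddTorus (Fin r))) :
    fc mFourier μ 0 = (μ.real Set.univ : ℂ) := by
  unfold fc
  rw [mFourier_zero]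
  simp

theorem fc_neg (μ : Measure (UnitAddTorus (Fin r))) (n : Fin r → ℤ) :
    fc mFourier μ (-n) = conj (fc mFourier μ n) := by
  unfold fc
  rw [← integral_conj]
  refine integral_congr_ae (Eventually.of_forall fun x => ?_)
  simp only
  rw [mFourier_neg]

theorem sq_one {σ : ℤ} (hσ : σ = 1 ∨ σ = -1) : (σ : ℂ) * σ = 1 := by
  rcases hσ with rfl | rfl <;> norm_num

theorem dist_sq {κ : Fin r → ℤ} {σ : ℤ} (hσ : σ = 1 ∨ σ = -1) (x : UnitAddTorus (Fin r)) :
    ((‖mFourier κ x - σ‖ ^ 2 : ℝ) : ℂ) = 2 - σ * mFourier κ x - σ * mFourier (-κ) x := by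
  rw [← Complex.normSq_eq_norm_sq, ← Complex.mul_conj, map_sub, map_intCast, mFourier_neg]
  have h4 : mFourier κ x * conj (mFourier κ x) = 1 := by
    rw [Complex.mul_conj, Complex.normSq_eq_norm_sq, norm_mF]
    simp
  have h5 := sq_one hσ
  linear_combination h4 + h5

theorem ae_rel {μ : Measure (UnitAddTorus (Fin r))} [IsFiniteMeasure μ] {κ : Fin r → ℤ} {σ : ℤ}
    (hσ : σ = 1 ∨ σ = -1) (h : fc mFourier μ κ = σ * fc mFourier μ 0) :
    ∀ᵐ x ∂μ, mFourier κ x = σ := by
  have hcont : Continuous fun x : UnitAddTorus (Fin r) => ‖mFourier κ x - σ‖ ^ 2 :=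
    ((mFourier κ).continuous.sub continuous_const).norm.pow 2
  have h1 : ((∫ x, ‖mFourier κ x - σ‖ ^ 2 ∂μ : ℝ) : ℂ) = 0 := by
    rw [← integral_complex_ofReal]
    simp only [dist_sq hσ]
    have i1 : Integrable (fun x => (σ : ℂ) * mFourier κ x) μ :=
      (integrable_cont μ (mFourier κ)).const_mul _
    have i2 : Integrable (fun x => (σ : ℂ) * mFourier (-κ) x) μ :=
      (integrable_cont μ (mFourier (-κ))).const_mul _
    have i3 : Integrable (fun _ : UnitAddTorus (Fin r) => (2 : ℂ)) μ := integrable_const _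
    have i4 : Integrable (fun x => (2 : ℂ) - (σ : ℂ) * mFourier κ x) μ := i3.sub i1
    rw [integral_sub i4 i2, integral_sub i3 i1, integral_const_mul, integral_const_mul]
    have h2 : ∫ x, mFourier κ x ∂μ = σ * (μ.real Set.univ : ℂ) := by
      rw [← fc_zero]; exact h
    have h3 : ∫ x, mFourier (-κ) x ∂μ = σ * (μ.real Set.univ : ℂ) := by
      have := fc_neg μ κ
      unfold fc at this
      rw [this, h2, map_mul, map_intCast, Complex.conj_ofReal]
    rw [h2, h3]
    simp only [integral_const, Complex.real_smul]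
    linear_combination (-2 * (μ.real Set.univ : ℂ)) * sq_one hσ
  have h2 : ∫ x, ‖mFourier κ x - σ‖ ^ 2 ∂μ = 0 := by exact_mod_cast h1
  rw [integral_eq_zero_iff_of_nonneg (fun x => sq_nonneg _)
    (Integrable.of_bound hcont.aestronglyMeasurable 4 (Eventually.of_forall fun x => by
      rw [Real.norm_eq_abs, abs_of_nonneg (sq_nonneg _)]
      have h3 : ‖mFourier κ x - (σ : ℂ)‖ ≤ 2 := by
        refine (norm_sub_le _ _).trans ?_
        rw [norm_mF, Complex.norm_intCast]
        rcases hσ with rfl | rfl <;> norm_num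
      have h4 := norm_nonneg (mFourier κ x - (σ : ℂ))
      nlinarith))] at h2
  filter_upwards [h2] with x hx
  have h3 : ‖mFourier κ x - (σ : ℂ)‖ ^ 2 = 0 := hx
  have h4 := pow_eq_zero_iff two_ne_zero |>.1 h3
  exact sub_eq_zero.1 (norm_eq_zero.1 h4)

theorem fc_of_ae {μ : Measure (UnitAddTorus (Fin r))} {κ : Fin r → ℤ}
    {z : ℂ} (h : ∀ᵐ x ∂μ, mFourier κ x = z) (n : Fin r → ℤ) :
    fc mFourier μ (n + κ) = z * fc mFourier μ n := by
  unfold fc
  rw [← integral_const_mul]
  refine integral_congr_ae ?_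
  filter_upwards [h] with x hx
  rw [mFourier_add, hx, mul_comm]

/-- the group of relations -/
def relG (μ : Measure (UnitAddTorus (Fin r))) : AddSubgroup (Fin r → ℤ) where
  carrier := {κ | ∃ σ : ℤ, (σ = 1 ∨ σ = -1) ∧ ∀ᵐ x ∂μ, mFourier κ x = σ}
  zero_mem' := ⟨1, Or.inl rfl, Eventually.of_forall fun x => by rw [mFourier_zero]; simp⟩
  add_mem' := by
    rintro κ κ' ⟨σ, hσ, h⟩ ⟨σ', hσ', h'⟩
    refine ⟨σ * σ', ?_, ?_⟩
    · rcases hσ with rfl | rfl <;> rcases hσ' with rfl | rfl <;> norm_num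
    · filter_upwards [h, h'] with x hx hx'
      rw [mFourier_add, hx, hx']
      push_cast
      rfl
  neg_mem' := by
    rintro κ ⟨σ, hσ, h⟩
    refine ⟨σ, hσ, ?_⟩
    filter_upwards [h] with x hx
    rw [mFourier_neg, hx, map_intCast]

theorem mem_relG {μ : Measure (UnitAddTorus (Fin r))} [IsFiniteMeasure μ] {κ : Fin r → ℤ} :
    κ ∈ relG μ ↔ ∃ σ : ℤ, (σ = 1 ∨ σ = -1) ∧ fc mFourier μ κ = σ * fc mFourier μ 0 := by
  constructor
  · rintro ⟨σ, hσ, h⟩
    refine ⟨σ, hσ, ?_⟩
    have := fc_of_ae h 0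
    rw [zero_add] at this
    exact this
  · rintro ⟨σ, hσ, h⟩
    exact ⟨σ, hσ, ae_rel hσ h⟩

theorem base_point {μ : Measure (UnitAddTorus (Fin r))} (h0 : μ ≠ 0) :
    ∃ x₀ : UnitAddTorus (Fin r), ∀ κ ∈ relG μ, (mFourier κ x₀ = 1 ∨ mFourier κ x₀ = -1) ∧
      ∀ᵐ x ∂μ, mFourier κ x = mFourier κ x₀ := by
  have h1 : ∀ κ : relG μ, ∃ σ : ℤ, (σ = 1 ∨ σ = -1) ∧ ∀ᵐ x ∂μ, mFourier (κ : Fin r → ℤ) x = σ :=
    fun κ => κ.2
  choose σ hσ h using h1
  have h2 : ∀ᵐ x ∂μ, ∀ κ : relG μ, mFourier (κ : Fin r → ℤ) x = σ κ := ae_all_iff.2 h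
  have hne : (ae μ).NeBot := ae_neBot.2 h0
  obtain ⟨x₀, hx₀⟩ := h2.exists
  refine ⟨x₀, fun κ hκ => ⟨?_, ?_⟩⟩
  · rw [hx₀ ⟨κ, hκ⟩]
    rcases hσ ⟨κ, hκ⟩ with h | h <;> rw [h] <;> simp
  · filter_upwards [h ⟨κ, hκ⟩] with x hx
    rw [hx, hx₀ ⟨κ, hκ⟩]

theorem weyl_ae {m : Measure (UnitAddTorus (Fin r))} (hm : HaarOn ⊤ m) {α : Fin a → Fin r → ℤ}
    (hα : ∀ j, α j ≠ 0) : ∀ᵐ x ∂m, 0 < weyl α x := by
  have h1 : ∀ᵐ x ∂m, ∀ j, mFourier (α j) x ≠ 1 := by
    rw [ae_all_iff]
    intro j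
    rw [ae_iff]
    simp only [not_not]
    exact haar_null hm (hα j)
  filter_upwards [h1] with x hx
  unfold weyl
  refine Finset.prod_pos fun j _ => ?_
  have := norm_pos_iff.2 (sub_ne_zero.2 (hx j))
  positivity

theorem P_int {m : Measure (UnitAddTorus (Fin r))} (hm : HaarOn ⊤ m) {α : Fin a → Fin r → ℤ}
    {P : (Fin r → ℤ) →₀ ℤ} (hP : ∀ x, (weyl α x : ℂ) = ev P x) (n : Fin r → ℤ) :
    ∫ x, mFourier n x * (weyl α x : ℂ) ∂m = P n := by
  simp only [hP]
  rw [int_ev hm, weyl_symm hm hP]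

theorem P_zero {m : Measure (UnitAddTorus (Fin r))} (hm : HaarOn ⊤ m) {α : Fin a → Fin r → ℤ}
    {P : (Fin r → ℤ) →₀ ℤ} (hP : ∀ x, (weyl α x : ℂ) = ev P x) :
    ∫ x, weyl α x ∂m = P 0 := by
  have h1 := P_int hm hP 0
  rw [mFourier_zero] at h1
  simp only [ContinuousMap.one_apply, one_mul] at h1
  rw [integral_complex_ofReal] at h1
  exact_mod_cast h1

theorem int_weyl (m : Measure (UnitAddTorus (Fin r))) [IsFiniteMeasure m]
    {q : UnitAddTorus (Fin r) → ℝ} (hq : Continuous q) : Integrable q m := by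
  obtain ⟨C, hC⟩ := (isCompact_univ (X := UnitAddTorus (Fin r))).exists_bound_of_continuousOn
    hq.continuousOn
  exact Integrable.of_bound hq.aestronglyMeasurable C
    (Eventually.of_forall fun x => hC x (Set.mem_univ x))

theorem P_pos {m : Measure (UnitAddTorus (Fin r))} (hm : HaarOn ⊤ m) {α : Fin a → Fin r → ℤ}
    (hα : ∀ j, α j ≠ 0) {P : (Fin r → ℤ) →₀ ℤ} (hP : ∀ x, (weyl α x : ℂ) = ev P x) :
    0 < P 0 := by
  have := hm.prob
  have h1 := P_zero hm hP
  by_contra hcon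
  push Not at hcon
  have h2 : (P 0 : ℝ) ≤ 0 := by exact_mod_cast hcon
  rw [← h1] at h2
  have h3 := le_antisymm h2 (integral_nonneg (weyl_nonneg α))
  rw [integral_eq_zero_iff_of_nonneg (weyl_nonneg α) (int_weyl m (continuous_weyl α))] at h3
  have h4 : ∀ᵐ _ ∂m, False := by
    filter_upwards [h3, weyl_ae hm hα] with x hx hx'
    rw [hx] at hx'
    exact lt_irrefl _ hx'
  have hne : (ae m).NeBot := inferInstance
  obtain ⟨x, hx⟩ := h4.exists
  exact hx

theorem P_ne {m : Measure (UnitAddTorus (Fin r))} (hm : HaarOn ⊤ m) {α : Fin a → Fin r → ℤ}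
    (hα : ∀ j, α j ≠ 0) {P : (Fin r → ℤ) →₀ ℤ} (hP : ∀ x, (weyl α x : ℂ) = ev P x)
    {κ : Fin r → ℤ} (hκ : κ ≠ 0) {σ : ℤ} (hσ : σ = 1 ∨ σ = -1) : P κ ≠ σ * P 0 := by
  have := hm.prob
  intro hcon
  have hcont : Continuous fun x : UnitAddTorus (Fin r) => ‖mFourier κ x - σ‖ ^ 2 * weyl α x :=
    (((mFourier κ).continuous.sub continuous_const).norm.pow 2).mul (continuous_weyl α)
  have h1 : ((∫ x, ‖mFourier κ x - σ‖ ^ 2 * weyl α x ∂m : ℝ) : ℂ) = 0 := by
    rw [← integral_complex_ofReal]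
    have h2 : ∀ x, ((‖mFourier κ x - σ‖ ^ 2 * weyl α x : ℝ) : ℂ) =
        2 * (mFourier 0 x * (weyl α x : ℂ)) - σ * (mFourier κ x * (weyl α x : ℂ)) -
          σ * (mFourier (-κ) x * (weyl α x : ℂ)) := by
      intro x
      rw [Complex.ofReal_mul, dist_sq hσ, mFourier_zero]
      simp only [ContinuousMap.one_apply]
      ring
    simp only [h2]
    have hw : ∀ n, Integrable (fun x => mFourier n x * (weyl α x : ℂ)) m :=
      fun n => integrable_cont m (mFourier n * ⟨fun x => (weyl α x : ℂ),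
        Complex.continuous_ofReal.comp (continuous_weyl α)⟩)
    have j1 : Integrable (fun x => 2 * (mFourier 0 x * (weyl α x : ℂ))) m := (hw 0).const_mul _
    have j2 : Integrable (fun x => (σ : ℂ) * (mFourier κ x * (weyl α x : ℂ))) m :=
      (hw κ).const_mul _
    have j3 : Integrable (fun x => (σ : ℂ) * (mFourier (-κ) x * (weyl α x : ℂ))) m :=
      (hw (-κ)).const_mul _
    have j4 : Integrable (fun x => 2 * (mFourier 0 x * (weyl α x : ℂ)) -
      (σ : ℂ) * (mFourier κ x * (weyl α x : ℂ))) m := j1.sub j2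
    rw [integral_sub j4 j3, integral_sub j1 j2, integral_const_mul,
      integral_const_mul, integral_const_mul, P_int hm hP, P_int hm hP, P_int hm hP,
      weyl_symm hm hP, hcon]
    push_cast
    linear_combination (-2 * (P 0 : ℂ)) * sq_one hσ
  have h2 : ∫ x, ‖mFourier κ x - σ‖ ^ 2 * weyl α x ∂m = 0 := by exact_mod_cast h1
  rw [integral_eq_zero_iff_of_nonneg (fun x => mul_nonneg (sq_nonneg _) (weyl_nonneg α x))
    (int_weyl m hcont)] at h2
  have hκ2 : κ + κ ≠ 0 := by
    intro h3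
    apply hκ
    funext i
    have h4 := congrFun h3 i
    simp only [Pi.add_apply, Pi.zero_apply] at h4 ⊢
    omega
  have h5 := haar_null hm hκ2
  have h4 : ∀ᵐ _ ∂m, False := by
    have h6 : ∀ᵐ x ∂m, mFourier (κ + κ) x ≠ 1 := by
      rw [ae_iff]
      simp only [not_not]
      exact h5
    filter_upwards [h2, weyl_ae hm hα, h6] with x hx hx' hx''
    have h7 : ‖mFourier κ x - σ‖ ^ 2 * weyl α x = 0 := hx
    rcases mul_eq_zero.1 h7 with h8 | h8
    · have h9 := sub_eq_zero.1 (norm_eq_zero.1 (pow_eq_zero_iff two_ne_zero |>.1 h8))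
      apply hx''
      rw [mFourier_add, h9]
      exact sq_one hσ
    · rw [h8] at hx'
      exact lt_irrefl _ hx'
  have hne : (ae m).NeBot := inferInstance
  obtain ⟨x, hx⟩ := h4.exists
  exact hx

/-- **classification** -/
theorem classify (α : Fin a → Fin r → ℤ) (hα : ∀ j, α j ≠ 0)
    {m : Measure (UnitAddTorus (Fin r))} (hm : HaarOn ⊤ m)
    (hs : ∀ g : UnitAddTorus (Fin r) → ℂ, Continuous g → g =ᵐ[m] 0 →
      ∀ x ∈ (⊤ : AddSubgroup (UnitAddTorus (Fin r))), g x = 0)
    (P : (Fin r → ℤ) →₀ ℤ) (hP : ∀ x, (weyl α x : ℂ) = ev P x) :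
    ∃ F : Finset (Fin r → ℤ), ∀ μ : Measure (UnitAddTorus (Fin r)), IsFiniteMeasure μ →
      (∀ n, ∃ c : ℤ, fc mFourier μ n = c) → (∀ n ∈ F, fc mFourier μ n = P n) →
      fc mFourier μ 0 = P 0 ∧ ∃ x₀ : UnitAddTorus (Fin r),
        (∀ κ ∈ relG μ, (mFourier κ x₀ = 1 ∨ mFourier κ x₀ = -1) ∧
          ∀ᵐ x ∂μ, mFourier κ x = mFourier κ x₀) ∧
        ∀ m' : Measure (UnitAddTorus (Fin r)), HaarOn (ann (relG μ)) m' →
          ∀ h : C(UnitAddTorus (Fin r), ℂ),
            ∫ x, h x ∂μ = ∫ y, h (x₀ + y) * (weyl α (x₀ + y) : ℂ) ∂m' := by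
  classical
  obtain ⟨F, hF⟩ := determined α hα hm hs P hP
  have hsym := weyl_symm hm hP
  refine ⟨F ∪ {0} ∪ P.support ∪ Finset.image₂ (fun u v => u - v) P.support P.support,
    fun μ hμ hint hμF => ?_⟩
  have hm1 := hF μ hμ hint fun n hn => hμF n (by
    simp only [Finset.mem_union]
    exact Or.inl (Or.inl (Or.inl hn)))
  have hm2 : fc mFourier μ 0 = P 0 := hμF 0 (by
    simp only [Finset.mem_union, Finset.mem_singleton]
    exact Or.inl (Or.inl (Or.inr trivial)))
  have hm3 : ∀ n ∈ P.support, fc mFourier μ n = P n := fun n hn => hμF n (by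
    simp only [Finset.mem_union]
    exact Or.inl (Or.inr hn))
  have hm4 : ∀ n ∈ P.support, ∀ n' ∈ P.support, fc mFourier μ (n - n') = P (n - n') :=
    fun n hn n' hn' => hμF _ (by
      simp only [Finset.mem_union]
      exact Or.inr (Finset.mem_image₂.2 ⟨n, hn, n', hn', rfl⟩))
  have hμ0 : μ ≠ 0 := by
    rintro rfl
    have h1 := P_pos hm hα hP
    rw [fc_zero] at hm2
    simp only [measureReal_zero, Pi.zero_apply, Complex.ofReal_zero] at hm2
    have h2 : (0 : ℤ) = P 0 := by exact_mod_cast hm2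
    omega
  obtain ⟨x₀, hx₀⟩ := base_point hμ0
  refine ⟨hm2, x₀, hx₀, fun m' hm' => ?_⟩
  have hprob := hm'.prob
  -- the measure on the coset
  have htr : ∀ κ ∈ relG μ, ∀ n, fc mFourier μ (n + κ) = mFourier κ x₀ * fc mFourier μ n :=
    fun κ hκ n => fc_of_ae (hx₀ κ hκ).2 n
  have huniq : ∀ n ∈ P.support, ∀ n' ∈ P.support, n - n' ∈ relG μ → n = n' := by
    intro n hn n' hn' h1
    by_contra hne
    obtain ⟨σ, hσ, h2⟩ := mem_relG.1 h1
    rw [hm4 n hn n' hn', hm2] at h2
    refine P_ne hm hα hP (sub_ne_zero.2 hne) hσ ?_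
    exact_mod_cast h2
  have hcx : Continuous fun y : UnitAddTorus (Fin r) => x₀ + y := continuous_const.add continuous_id
  have hwc : Continuous fun y => (weyl α (x₀ + y) : ℂ) :=
    Complex.continuous_ofReal.comp ((continuous_weyl α).comp hcx)
  have hint2 : ∀ q : C(UnitAddTorus (Fin r), ℂ),
      Integrable (fun y => q (x₀ + y) * (weyl α (x₀ + y) : ℂ)) m' := fun q =>
    integrable_cont m' ⟨fun y => q (x₀ + y) * (weyl α (x₀ + y) : ℂ),
      (q.continuous.comp hcx).mul hwc⟩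
  have hfour : ∀ n, fc mFourier μ n =
      ∫ y, mFourier n (x₀ + y) * (weyl α (x₀ + y) : ℂ) ∂m' := by
    intro n
    have h1 : ∀ y, mFourier n (x₀ + y) * (weyl α (x₀ + y) : ℂ) =
        ∑ p ∈ P.support, ((P p : ℂ) * mFourier (n + p) x₀) * mFourier (n + p) y := by
      intro y
      rw [hP]
      unfold ev
      rw [Finset.mul_sum]
      refine Finset.sum_congr rfl fun p _ => ?_
      have h2 : mFourier (n + p) (x₀ + y) = mFourier n (x₀ + y) * mFourier p (x₀ + y) :=
        mFourier_add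
      have h3 := mF_vadd (n + p) x₀ y
      linear_combination (P p : ℂ) * (h3 - h2)
    simp only [h1]
    rw [integral_finsetSum _ fun p _ => (integrable_cont m' (mFourier _)).const_mul _]
    simp only [integral_const_mul]
    have h2 : ∀ p, ∫ y, mFourier (n + p) y ∂m' = if n + p ∈ relG μ then 1 else 0 :=
      fun p => fc_haarOn hm' (n + p)
    simp only [h2]
    by_cases h3 : ∃ p ∈ P.support, n + p ∈ relG μ
    · obtain ⟨p, hp, h4⟩ := h3
      rw [Finset.sum_eq_single p]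
      · rw [if_pos h4, mul_one]
        have h5 := htr _ h4 (-p)
        have h6 : -p + (n + p) = n := by abel
        have h7 : -p ∈ P.support := by
          rw [Finsupp.mem_support_iff, hsym]
          exact Finsupp.mem_support_iff.1 hp
        rw [h6, hm3 _ h7, hsym, mul_comm] at h5
        exact h5
      · intro p' hp' hne
        rw [if_neg, mul_zero]
        intro h5
        apply hne
        refine huniq p' hp' p hp ?_
        have h6 := (relG μ).sub_mem h5 h4
        have h7 : n + p' - (n + p) = p' - p := by abel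
        rw [h7] at h6
        exact h6
      · intro h; exact absurd hp h
    · push Not at h3
      rw [Finset.sum_eq_zero fun p hp => by rw [if_neg (h3 p hp), mul_zero]]
      by_contra h4
      obtain ⟨p, σ, h5, hσ, h6⟩ := hm1 n h4
      refine h3 (-p) ?_ ?_
      · rw [Finsupp.mem_support_iff, hsym]
        exact h5
      · rw [← sub_eq_add_neg]
        exact mem_relG.2 ⟨σ, hσ, h6⟩
  -- from the coefficients to the integrals
  obtain ⟨S, hS⟩ := (isCompact_univ (X := UnitAddTorus (Fin r))).exists_bound_of_continuousOn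
    (continuous_weyl α).continuousOn
  intro h
  let L : C(UnitAddTorus (Fin r), ℂ) →ₗ[ℂ] ℂ :=
    { toFun := fun q => ∫ x, q x ∂μ - ∫ y, q (x₀ + y) * (weyl α (x₀ + y) : ℂ) ∂m'
      map_add' := fun q q' => by
        have h3 : ∫ y, (q + q') (x₀ + y) * (weyl α (x₀ + y) : ℂ) ∂m' =
            ∫ y, q (x₀ + y) * (weyl α (x₀ + y) : ℂ) ∂m' +
              ∫ y, q' (x₀ + y) * (weyl α (x₀ + y) : ℂ) ∂m' := by
          rw [← integral_add (hint2 q) (hint2 q')]
          refine integral_congr_ae (Eventually.of_forall fun x => ?_)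
          simp only [ContinuousMap.add_apply]
          ring
        have h4 : ∫ x, (q + q') x ∂μ = ∫ x, q x ∂μ + ∫ x, q' x ∂μ :=
          integral_add (integrable_cont μ q) (integrable_cont μ q')
        rw [h3, h4]
        ring
      map_smul' := fun z q => by
        have h3 : ∫ y, (z • q) (x₀ + y) * (weyl α (x₀ + y) : ℂ) ∂m' =
            z * ∫ y, q (x₀ + y) * (weyl α (x₀ + y) : ℂ) ∂m' := by
          rw [← integral_const_mul]
          refine integral_congr_ae (Eventually.of_forall fun x => ?_)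
          simp only [ContinuousMap.smul_apply, smul_eq_mul]
          ring
        have h4 : ∫ x, (z • q) x ∂μ = z * ∫ x, q x ∂μ := integral_const_mul z _
        rw [h3, h4, RingHom.id_apply, smul_eq_mul]
        ring }
  have h3 := zero_of_chars (chars_mF (d := Fin r)) L (μ.real Set.univ + S) (fun q => ?_)
    (fun n => ?_) h
  · exact sub_eq_zero.1 h3
  · change ‖∫ x, q x ∂μ - ∫ y, q (x₀ + y) * (weyl α (x₀ + y) : ℂ) ∂m'‖ ≤ _
    refine (norm_sub_le _ _).trans ?_
    rw [add_mul]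
    refine add_le_add ?_ ?_
    · refine (norm_integral_le_of_norm_le_const (C := ‖q‖)
        (Eventually.of_forall fun x => q.norm_coe_le_norm x)).trans ?_
      rw [mul_comm]
    · refine (norm_integral_le_of_norm_le_const (C := S * ‖q‖)
        (Eventually.of_forall fun y => ?_)).trans ?_
      · rw [norm_mul, mul_comm, Complex.norm_real]
        exact mul_le_mul (hS _ (Set.mem_univ _)) (q.norm_coe_le_norm _) (norm_nonneg _)
          ((norm_nonneg _).trans (hS x₀ (Set.mem_univ _)))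
      · simp
  · change ∫ x, mFourier n x ∂μ - ∫ y, mFourier n (x₀ + y) * (weyl α (x₀ + y) : ℂ) ∂m' = 0
    rw [sub_eq_zero]
    exact hfour n

end Pool.Agent.HX6.FD
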