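import Pool.Agent.HX6.FD.E

/-! Densities, orbits and the examples. -/

set_option autoImplicit false
set_option linter.unusedSectionVars false

namespace Pool.Agent.HX6.FD

open Filter Topology Complex MeasureTheory UnitAddTorus Pool.Agent.HX6.ST NumberField
  IsDedekindDomain
open scoped ComplexConjugate

variable {r a : ℕ}

section volume

theorem haar_volume : HaarOn ⊤ (volume : Measure (UnitAddTorus (Fin r))) where
  prob := ⟨by
    rw [volume_pi, Measure.pi_univ]
    refine Finset.prod_eq_one fun i _ => ?_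
    exact UnitAddCircle.measure_univ⟩
  null := by simp
  inv := fun x _ => map_add_left_eq_self volume x

theorem full_volume (g : UnitAddTorus (Fin r) → ℂ) (hg : Continuous g)
    (h : g =ᵐ[(volume : Measure (UnitAddTorus (Fin r)))] 0) :
    ∀ x ∈ (⊤ : AddSubgroup (UnitAddTorus (Fin r))), g x = 0 := by
  intro x _
  have h1 := (Continuous.ae_eq_iff_eq volume hg continuous_const).1 h
  rw [h1]
  rfl

end volume

section dual

/-- the endomorphism of the torus dual to an endomorphism of the group of characters -/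
noncomputable def dual (w : (Fin r → ℤ) →+ (Fin r → ℤ)) (x : UnitAddTorus (Fin r)) :
    UnitAddTorus (Fin r) := fun i => pr (w (Pi.single i 1)) x

theorem continuous_dual (w : (Fin r → ℤ) →+ (Fin r → ℤ)) : Continuous (dual w) := by
  refine continuous_pi fun i => ?_
  change Continuous fun x : UnitAddTorus (Fin r) => ∑ j, (w (Pi.single i 1)) j • x j
  exact continuous_finsetSum _ fun j _ => (continuous_apply j).zsmul _

theorem pr_addf (n n' : Fin r → ℤ) (x : UnitAddTorus (Fin r)) :
    pr (n + n') x = pr n x + pr n' x := by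
  unfold pr
  rw [← Finset.sum_add_distrib]
  exact Finset.sum_congr rfl fun i _ => by rw [Pi.add_apply, add_smul]

/-- evaluation of the frequencies at a point, as a homomorphism -/
noncomputable def prh (x : UnitAddTorus (Fin r)) : (Fin r → ℤ) →+ UnitAddCircle where
  toFun n := pr n x
  map_zero' := by unfold pr; simp
  map_add' n n' := pr_addf n n' x

theorem pr_dual (w : (Fin r → ℤ) →+ (Fin r → ℤ)) (n : Fin r → ℤ) (x : UnitAddTorus (Fin r)) :
    pr n (dual w x) = pr (w n) x := by
  have h1 : n = ∑ i, n i • (Pi.single i (1 : ℤ) : Fin r → ℤ) := by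
    funext j
    rw [Finset.sum_apply, Finset.sum_eq_single j]
    · simp
    · intro i _ hi
      rw [Pi.smul_apply, Pi.single_eq_of_ne hi.symm, smul_zero]
    · intro h; exact absurd (Finset.mem_univ j) h
  have h2 : pr (w n) x = prh x (w n) := rfl
  rw [h2]
  conv_rhs => rw [h1]
  rw [map_sum, map_sum]
  unfold pr
  refine Finset.sum_congr rfl fun i _ => ?_
  rw [map_zsmul, map_zsmul]
  rfl

theorem mF_dual (w : (Fin r → ℤ) →+ (Fin r → ℤ)) (n : Fin r → ℤ) (x : UnitAddTorus (Fin r)) :
    mFourier n (dual w x) = mFourier (w n) x := by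
  rw [mF_pr, mF_pr, pr_dual]

end dual

section finite

theorem ann_torsion {Λ : AddSubgroup (Fin r → ℤ)} {N : ℕ} (hN : ∀ n, (N : ℤ) • n ∈ Λ)
    {x : UnitAddTorus (Fin r)} (hx : x ∈ ann Λ) : N • x = 0 := by
  funext i
  have h1 := hx _ (hN (Pi.single i 1))
  rw [mF_one_iff] at h1
  unfold pr at h1
  rw [Finset.sum_eq_single i] at h1
  · rw [Pi.smul_apply, Pi.single_eq_same, smul_eq_mul, mul_one, natCast_zsmul] at h1
    rw [Pi.smul_apply, h1]
    rfl
  · intro j _ hj
    rw [Pi.smul_apply, Pi.single_eq_of_ne hj, smul_zero, zero_smul]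
  · intro h; exact absurd (Finset.mem_univ i) h

theorem ann_finite {Λ : AddSubgroup (Fin r → ℤ)} (h : Λ.index ≠ 0) :
    (ann Λ : Set (UnitAddTorus (Fin r))).Finite := by
  have h1 : ∀ n, (Λ.index : ℤ) • n ∈ Λ := fun n => by
    rw [natCast_zsmul]
    exact AddSubgroup.nsmul_index_mem Λ n
  have h2 : (Set.pi Set.univ fun _ : Fin r =>
      {u : UnitAddCircle | Λ.index • u = 0}).Finite :=
    Set.Finite.pi fun _ => AddCircle.finite_torsion 1 (Nat.pos_of_ne_zero h)
  refine h2.subset fun x hx => ?_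
  rw [Set.mem_univ_pi]
  intro i
  have h3 := congrFun (ann_torsion h1 hx) i
  exact h3

theorem ann_bot : ann (⊥ : AddSubgroup (Fin r → ℤ)) = ⊤ := by
  rw [eq_top_iff]
  intro x _ κ hκ
  rw [AddSubgroup.mem_bot] at hκ
  rw [hκ, mFourier_zero]
  rfl

end finite

section density

open Pool.Agent.TH553.RS Pool.Agent.TH553.ST Pool.Agent.W540.BE Pool.Agent.H341R2
  Pool.Agent.HX6.GO H332.PIT

variable {K : Type} [Field K] [NumberField K] {b : ℕ}

/-- a relation which holds almost everywhere -/
theorem zero_dens (θ : HeightOneSpectrum (𝓞 K) → Fin b → UnitAddTorus (Fin r))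
    {μ : Measure (UnitAddTorus (Fin r))} [IsFiniteMeasure μ]
    (hlaw : ∀ h : C(UnitAddTorus (Fin r), ℂ), Am (fun v => ∑ i, h (θ v i)) (∫ x, h x ∂μ))
    {κ : Fin r → ℤ} {z : ℂ} (hz : ‖z‖ = 1) (hκ : ∀ᵐ x ∂μ, mFourier κ x = z) {δ : ℝ}
    (hδ : 0 < δ) :
    Tendsto (pd {v | ∃ i, δ ≤ ‖mFourier κ (θ v i) - z‖}) (𝓝[>] 0) (𝓝 0) := by
  set S : Set (HeightOneSpectrum (𝓞 K)) := {v | ∃ i, δ ≤ ‖mFourier κ (θ v i) - z‖} with hS
  set g : UnitAddTorus (Fin r) → ℝ := fun x => ‖mFourier κ x - z‖ / δ with hg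
  have hgc : Continuous g := ((mFourier κ).continuous.sub continuous_const).norm.div_const δ
  have hg0 : ∀ x, 0 ≤ g x := fun x => by positivity
  have hg1 : ∀ x, g x ≤ 2 / δ := fun x => by
    refine div_le_div_of_nonneg_right ?_ hδ.le
    refine (norm_sub_le _ _).trans ?_
    rw [norm_mF, hz]
    norm_num
  have hgS : ∀ v, S.indicator (fun _ => (1 : ℝ)) v ≤ ∑ i, g (θ v i) := by
    intro v
    by_cases hv : v ∈ S
    · rw [Set.indicator_of_mem hv]
      obtain ⟨i, hi⟩ := hv
      have h1 : 1 ≤ g (θ v i) := by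
        rw [hg]
        simp only
        rw [le_div_iff₀ hδ, one_mul]
        exact hi
      exact h1.trans (Finset.single_le_sum (f := fun i => g (θ v i)) (fun j _ => hg0 _)
        (Finset.mem_univ i))
    · rw [Set.indicator_of_notMem hv]
      exact Finset.sum_nonneg fun i _ => hg0 _
  have hbd1 : Bd fun v => ∑ i, g (θ v i) := by
    refine ⟨b * (2 / δ), fun v => ?_⟩
    rw [abs_of_nonneg (Finset.sum_nonneg fun i _ => hg0 _)]
    refine (Finset.sum_le_card_nsmul _ _ (2 / δ) fun i _ => hg1 _).trans (by simp)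
  have hbd2 : Bd fun v => S.indicator (fun _ => (1 : ℝ)) v := by
    refine ⟨1, fun v => ?_⟩
    beta_reduce
    by_cases hv : v ∈ S
    · rw [Set.indicator_of_mem hv]; simp
    · rw [Set.indicator_of_notMem hv]; simp
  have hmean := hlaw ⟨fun x => (g x : ℂ), Complex.continuous_ofReal.comp hgc⟩
  simp only [ContinuousMap.coe_mk] at hmean
  rw [integral_complex_ofReal] at hmean
  have h2 : (fun v : HeightOneSpectrum (𝓞 K) => ∑ i, (g (θ v i) : ℂ)) =
      fun v => ((∑ i, g (θ v i) : ℝ) : ℂ) := by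
    funext v
    push_cast
    rfl
  rw [h2] at hmean
  have h3 := real_mean hbd1 hmean
  have h4 : ∫ x, g x ∂μ = 0 := by
    have h5 : ∫ x, g x ∂μ = ∫ _ : UnitAddTorus (Fin r), (0 : ℝ) ∂μ := by
      refine integral_congr_ae ?_
      filter_upwards [hκ] with x hx
      rw [hg]
      simp [hx]
    rw [h5, integral_zero]
  rw [h4] at h3
  refine tendsto_of_tendsto_of_tendsto_of_le_of_le' tendsto_const_nhds h3 ?_ ?_
  · filter_upwards [log_tendsto.eventually_gt_atTop 0] with ε h7
    rw [pd_eq]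
    refine div_nonneg (EP_nonneg fun v => ?_) h7.le
    by_cases hv : v ∈ S
    · rw [Set.indicator_of_mem hv]; norm_num
    · rw [Set.indicator_of_notMem hv]
  · filter_upwards [self_mem_nhdsWithin, log_tendsto.eventually_gt_atTop 0] with ε h6 h7
    rw [pd_eq]
    exact div_le_div_of_nonneg_right (EP_mono' hbd2 hbd1 hgS h6) h7.le

end density

end Pool.Agent.HX6.FD
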