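import Pool.Agent.HX6.FD.F

/-! Laws on finite groups which agree with the law of Weyl on a given finite set. -/

set_option autoImplicit false
set_option linter.unusedSectionVars false

namespace Pool.Agent.HX6.FD

open Filter Topology Complex MeasureTheory UnitAddTorus Pool.Agent.HX6.ST NumberField
  IsDedekindDomain
open scoped ComplexConjugate

variable {r a : ℕ}

/-- the multiples of `N` -/
def mult (r N : ℕ) : AddSubgroup (Fin r → ℤ) where
  carrier := {κ | ∃ κ', (N : ℤ) • κ' = κ}
  zero_mem' := ⟨0, smul_zero _⟩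
  add_mem' := by
    rintro _ _ ⟨κ, rfl⟩ ⟨κ', rfl⟩
    exact ⟨κ + κ', smul_add _ _ _⟩
  neg_mem' := by
    rintro _ ⟨κ, rfl⟩
    exact ⟨-κ, smul_neg _ _⟩

theorem exists_mult (S : Finset (Fin r → ℤ)) : ∃ N : ℕ, 0 < N ∧ ∀ n ∈ S, n ∈ mult r N → n = 0 := by
  refine ⟨1 + ∑ n ∈ S, ∑ j, (n j).natAbs, by omega, fun n hn h => ?_⟩
  obtain ⟨κ, hκ⟩ := h
  funext j
  have h1 : (n j).natAbs ≤ ∑ j, (n j).natAbs :=
    Finset.single_le_sum (f := fun j => (n j).natAbs) (fun _ _ => Nat.zero_le _)
      (Finset.mem_univ j)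
  have h2 : ∑ j, (n j).natAbs ≤ ∑ n ∈ S, ∑ j, (n j).natAbs :=
    Finset.single_le_sum (f := fun n : Fin r → ℤ => ∑ j, (n j).natAbs)
      (fun _ _ => Nat.zero_le _) hn
  have h3 : ((1 + ∑ n ∈ S, ∑ j, (n j).natAbs : ℕ) : ℤ) * κ j = n j := by
    rw [← hκ]
    rfl
  set N := 1 + ∑ n ∈ S, ∑ j, (n j).natAbs with hN
  have h4 : N * (κ j).natAbs = (n j).natAbs := by
    rw [← h3, Int.natAbs_mul, Int.natAbs_natCast]
  by_contra h5
  have h6 : κ j ≠ 0 := by
    intro h7
    apply h5
    rw [← h3, h7, mul_zero]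
    rfl
  have h7 : 1 ≤ (κ j).natAbs := Nat.one_le_iff_ne_zero.2 (Int.natAbs_ne_zero.2 h6)
  have h8 : N ≤ (n j).natAbs := by
    rw [← h4]
    exact Nat.le_mul_of_pos_right N h7
  omega

variable {K : Type} [Field K] [NumberField K]

open Pool.Agent.HX6.GO in
/-- the examples -/
theorem example_law {α : Fin a → Fin r → ℤ} {P : (Fin r → ℤ) →₀ ℤ}
    (hP : ∀ x, (weyl α x : ℂ) = ev P x) (hsym : ∀ n, P (-n) = P n) {b : ℕ} (hb0 : 0 < b)
    (hb : P 0 = b) (F : Finset (Fin r → ℤ)) (w : Fin b → ((Fin r → ℤ) ≃+ (Fin r → ℤ)))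
    (hw : ∀ i n, P (w i n) = P n) :
    ∃ (N : ℕ) (y : HeightOneSpectrum (𝓞 K) → UnitAddTorus (Fin r)) (c : (Fin r → ℤ) → ℤ),
      0 < N ∧ (∀ v, N • y v = 0) ∧ (∀ n ∈ F, c n = P n) ∧
      ∀ (n : Fin r → ℤ) (τ : ℝ), ∃ Λ : ℂ → ℂ,
        MeromorphicAt Λ (1 + τ * I) ∧ (∀ᶠ s in 𝓝 ((1 : ℂ) + τ * I), 1 < s.re →
          Λ s = LA (fun v i => mFourier n (dual (w i).toAddMonoidHom (y v))) s) ∧
        meromorphicOrderAt Λ (1 + τ * I) = if τ = 0 then -c n else 0 := by
  classical
  obtain ⟨N, hN0, hN⟩ := exists_mult (Finset.image₂ (fun n p => n + p) (insert 0 F) P.support)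
  set Λ := mult r N with hΛ
  have hΛN : ∀ n, (N : ℤ) • n ∈ Λ := fun n => ⟨n, rfl⟩
  obtain ⟨m, hm, -⟩ := exists_haarOn (isClosed_ann Λ)
  have := hm.prob
  set c : (Fin r → ℤ) → ℤ := fun n => ∑ p ∈ P.support, if n + p ∈ Λ then P p else 0 with hc
  have hcint : ∀ n, ∫ x, mFourier n x * (weyl α x : ℂ) ∂m = c n := by
    intro n
    have h1 : ∀ x, mFourier n x * (weyl α x : ℂ) =
        ∑ p ∈ P.support, (P p : ℂ) * mFourier (n + p) x := by
      intro x
      rw [hP]
      unfold ev
      rw [Finset.mul_sum]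
      refine Finset.sum_congr rfl fun p _ => ?_
      rw [mFourier_add]
      ring
    simp only [h1]
    rw [integral_finsetSum _ fun p _ => (integrable_cont m (mFourier _)).const_mul _, hc]
    push_cast
    refine Finset.sum_congr rfl fun p _ => ?_
    rw [integral_const_mul]
    have h2 : ∫ x, mFourier (n + p) x ∂m = if n + p ∈ Λ then 1 else 0 := fc_haarOn hm (n + p)
    rw [h2]
    split_ifs <;> simp
  have hcF : ∀ n ∈ insert 0 F, c n = P n := by
    intro n hn
    rw [hc]
    simp only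
    by_cases h : -n ∈ P.support
    · rw [Finset.sum_eq_single (-n)]
      · rw [add_neg_cancel, if_pos Λ.zero_mem, hsym]
      · intro p hp hne
        rw [if_neg]
        intro h1
        apply hne
        have h2 := hN _ (Finset.mem_image₂.2 ⟨n, hn, p, hp, rfl⟩) h1
        exact (neg_eq_of_add_eq_zero_right h2).symm
      · intro h'; exact absurd h h'
    · have h0 := Finsupp.notMem_support_iff.1 h
      rw [hsym] at h0
      rw [h0]
      refine Finset.sum_eq_zero fun p hp => ?_
      rw [if_neg]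
      intro h1
      have h2 := hN _ (Finset.mem_image₂.2 ⟨n, hn, p, hp, rfl⟩) h1
      apply h
      rw [neg_eq_of_add_eq_zero_right h2]
      exact hp
  -- invariance
  have hwΛ : ∀ i n, w i n ∈ Λ ↔ n ∈ Λ := by
    intro i n
    constructor
    · rintro ⟨κ, hκ⟩
      refine ⟨(w i).symm κ, ?_⟩
      apply (w i).injective
      rw [map_zsmul, (w i).apply_symm_apply]
      exact hκ
    · rintro ⟨κ, rfl⟩
      refine ⟨w i κ, ?_⟩
      rw [map_zsmul]
  have hcw : ∀ i n, c (w i n) = c n := by
    intro i n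
    rw [hc]
    simp only
    symm
    refine Finset.sum_equiv (w i).toEquiv (fun p => ?_) fun p _ => ?_
    · rw [Finsupp.mem_support_iff, Finsupp.mem_support_iff]
      change P p ≠ 0 ↔ P (w i p) ≠ 0
      rw [hw]
    · change _ = if w i n + w i p ∈ Λ then P (w i p) else 0
      rw [← map_add, hw]
      simp only [hwΛ]
  -- the probability measure
  have hbR : (0 : ℝ) < b := by exact_mod_cast hb0
  have hwb : Continuous fun x => weyl α x / b := (continuous_weyl α).div_const _
  have hwb0 : ∀ x, 0 ≤ weyl α x / b := fun x => div_nonneg (weyl_nonneg α x) hbR.le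
  set ν : Measure (UnitAddTorus (Fin r)) :=
    m.withDensity fun x => ENNReal.ofReal (weyl α x / b) with hν
  have hνint : ∀ f : UnitAddTorus (Fin r) → ℂ,
      ∫ x, f x ∂ν = ∫ x, f x * ((weyl α x / b : ℝ) : ℂ) ∂m := by
    intro f
    rw [hν, integral_withDensity_eq_integral_toReal_smul₀
      (hwb.measurable.ennreal_ofReal.aemeasurable) (Eventually.of_forall fun x =>
        ENNReal.ofReal_lt_top)]
    refine integral_congr_ae (Eventually.of_forall fun x => ?_)
    simp only
    rw [ENNReal.toReal_ofReal (hwb0 x), Complex.real_smul, mul_comm]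
  have hmass : ∫ x, weyl α x ∂m = b := by
    have h1 := hcint 0
    rw [hcF 0 (Finset.mem_insert_self _ _), hb, mFourier_zero] at h1
    simp only [ContinuousMap.one_apply, one_mul] at h1
    rw [integral_complex_ofReal] at h1
    exact_mod_cast h1
  have hνprob : IsProbabilityMeasure ν := ⟨by
    rw [hν, withDensity_apply _ MeasurableSet.univ, Measure.restrict_univ,
      ← ofReal_integral_eq_lintegral_ofReal (int_weyl m hwb) (Eventually.of_forall hwb0),
      integral_div, hmass, div_self hbR.ne', ENNReal.ofReal_one]⟩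
  have hcl : IsClosed (ann Λ : Set (UnitAddTorus (Fin r))) := isClosed_ann Λ
  have hνnull : ν (ann Λ : Set (UnitAddTorus (Fin r)))ᶜ = 0 :=
    withDensity_absolutelyContinuous _ _ hm.null
  have : CompactSpace (ann Λ : Set (UnitAddTorus (Fin r))) :=
    isCompact_iff_compactSpace.1 hcl.isCompact
  set ρ : Measure (ann Λ : Set (UnitAddTorus (Fin r))) := ν.comap Subtype.val with hρ
  have hρprob : IsProbabilityMeasure ρ := ⟨by
    rw [hρ, (MeasurableEmbedding.subtype_coe hcl.measurableSet).comap_apply, Set.image_univ,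
      Subtype.range_coe]
    exact (prob_compl_eq_zero_iff hcl.measurableSet).1 hνnull⟩
  have hρint : ∀ f : UnitAddTorus (Fin r) → ℂ, ∫ x, f x.1 ∂ρ = ∫ x, f x ∂ν := by
    intro f
    rw [hρ, integral_subtype_comap hcl.measurableSet]
    have h1 : ν.restrict (ann Λ : Set (UnitAddTorus (Fin r))) = ν := by
      refine Measure.restrict_eq_self_of_ae_mem ?_
      rw [ae_iff]
      exact hνnull
    rw [h1]
  obtain ⟨y, hy⟩ := realize (K := K) (ρ := ρ)
    (fun i => (⟨fun x => dual (w i).toAddMonoidHom x.1,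
      (continuous_dual _).comp continuous_subtype_val⟩ :
        C((ann Λ : Set (UnitAddTorus (Fin r))), UnitAddTorus (Fin r)))) c (fun n => by
    have h1 : ∀ i : Fin b, ∫ x, mFourier n ((⟨fun x => dual (w i).toAddMonoidHom x.1,
        (continuous_dual _).comp continuous_subtype_val⟩ :
        C((ann Λ : Set (UnitAddTorus (Fin r))), UnitAddTorus (Fin r))) x) ∂ρ = c n / b := by
      intro i
      simp only [ContinuousMap.coe_mk]
      rw [hρint (fun x => mFourier n (dual (w i).toAddMonoidHom x)), hνint]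
      have h2 : ∀ x, mFourier n (dual (w i).toAddMonoidHom x) * ((weyl α x / b : ℝ) : ℂ) =
          (mFourier (w i n) x * (weyl α x : ℂ)) / b := by
        intro x
        rw [mF_dual]
        push_cast
        change mFourier (w i n) x * _ = _
        ring
      simp only [h2]
      rw [integral_div, hcint, hcw]
    simp only [h1]
    rw [Finset.sum_const, Finset.card_univ, Fintype.card_fin, nsmul_eq_mul]
    have : (b : ℂ) ≠ 0 := by exact_mod_cast hb0.ne'
    field_simp)
  exact ⟨N, fun v => (y v).1, c, hN0, fun v => ann_torsion hΛN (y v).2,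
    fun n hn => hcF n (Finset.mem_insert_of_mem hn), hy⟩

end Pool.Agent.HX6.FD
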